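import Pool.Agent.L5helper59.BP.Prob

/-!
# Random tuples: the asymptotic form of the bound
-/

set_option autoImplicit false

namespace Pool.Agent.L5helper59.BP

open MeasureTheory ENNReal

variable {B : Type} [Countable B] [MeasurableSpace B] [DiscreteMeasurableSpace B]

theorem good_bound_real (ν : Measure B) [IsProbabilityMeasure ν] (c : ℝ) (hc : ∀ b, ν.real {b} ≤ c)
    (hc0 : 0 ≤ c) (hc1 : c ≤ 1)
    (n : ℕ) {m k : ℕ} (hk : k ≤ m) (F : Finset B) (r : ℕ) {s : ℕ} (e : Fin s → Fin k → B) :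
    (law ν n m).real {ω | ¬ Good hk e ω} ≤ ∑ v, (1 - ∏ l, ν.real {e v l}) ^ n +
      2 ^ n * (k * ν.real (F : Set B)ᶜ) ^ r + m * c ^ (n - r - F.card ^ k) := by
  have h1 := good_bound ν (ENNReal.ofReal c) (fun b => by
    rw [← ofReal_measureReal]
    exact ENNReal.ofReal_le_ofReal (hc b)) (by
    rw [← ENNReal.ofReal_one]
    exact ENNReal.ofReal_le_ofReal hc1) n hk F r e
  have hp : ∀ v, ∏ l, ν.real {e v l} ≤ 1 := fun v =>
    Finset.prod_le_one (fun l _ => measureReal_nonneg) (fun l _ => measureReal_le_one)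
  have hp0 : ∀ v, 0 ≤ 1 - ∏ l, ν.real {e v l} := fun v => sub_nonneg.2 (hp v)
  have h2 : ∑ v, (1 - ∏ l, ν {e v l}) ^ n + 2 ^ n * (k * ν (F : Set B)ᶜ) ^ r +
      m * (ENNReal.ofReal c) ^ (n - r - F.card ^ k) =
      ENNReal.ofReal (∑ v, (1 - ∏ l, ν.real {e v l}) ^ n +
      2 ^ n * (k * ν.real (F : Set B)ᶜ) ^ r + m * c ^ (n - r - F.card ^ k)) := by
    rw [ENNReal.ofReal_add, ENNReal.ofReal_add, ENNReal.ofReal_sum_of_nonneg, ENNReal.ofReal_mul,
      ENNReal.ofReal_mul, ENNReal.ofReal_pow, ENNReal.ofReal_pow, ENNReal.ofReal_pow, ENNReal.ofReal_mul,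
      ofReal_measureReal, ENNReal.ofReal_natCast, ENNReal.ofReal_natCast, ENNReal.ofReal_ofNat]
    · congr 2
      refine Finset.sum_congr rfl (fun v _ => ?_)
      rw [ENNReal.ofReal_pow (hp0 v), ENNReal.ofReal_sub, ENNReal.ofReal_one, ENNReal.ofReal_prod_of_nonneg]
      · congr 2
        refine Finset.prod_congr rfl (fun l _ => ?_)
        rw [ofReal_measureReal]
      · exact fun l _ => measureReal_nonneg
      · exact Finset.prod_nonneg (fun l _ => measureReal_nonneg)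
    all_goals first
      | positivity
      | exact fun v _ => pow_nonneg (hp0 v) n
      | exact Finset.sum_nonneg (fun v _ => pow_nonneg (hp0 v) n)
      | exact add_nonneg (Finset.sum_nonneg (fun v _ => pow_nonneg (hp0 v) n)) (by positivity)
  rw [h2] at h1
  refine ENNReal.toReal_le_of_le_ofReal ?_ h1
  exact add_nonneg (add_nonneg (Finset.sum_nonneg (fun v _ => pow_nonneg (hp0 v) n)) (by positivity)) (by positivity)

omit [DiscreteMeasurableSpace B] in
theorem exists_finset [MeasurableSingletonClass B] (ν : Measure B) [IsProbabilityMeasure ν] (τ : ℝ) (hτ : 0 < τ) :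
    ∃ F : Finset B, ν.real (F : Set B)ᶜ ≤ τ := by
  have h1 : ∑' b, ν {b} ≠ ∞ := by
    have h2 := (measure_iUnion (μ := ν) (f := fun b : B => {b}) (fun a b hab => by
      simpa [Function.onFun] using hab) (fun b => measurableSet_singleton b))
    rw [← h2]
    exact measure_ne_top _ _
  have h2 := ENNReal.tendsto_tsum_compl_atTop_zero h1
  have h3 : ∀ᶠ F : Finset B in Filter.atTop, ∑' b : {x // x ∉ F}, ν {b.1} < ENNReal.ofReal τ :=
    h2.eventually (gt_mem_nhds (by simpa using hτ))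
  obtain ⟨F, hF⟩ := h3.exists
  refine ⟨F, ?_⟩
  have h4 : ν (F : Set B)ᶜ ≤ ∑' b : {x // x ∉ F}, ν {b.1} := by
    have : (F : Set B)ᶜ ⊆ ⋃ b : {x // x ∉ F}, {b.1} := by
      intro x hx
      exact Set.mem_iUnion.2 ⟨⟨x, fun h => hx h⟩, rfl⟩
    exact (measure_mono this).trans (measure_iUnion_le _)
  exact ENNReal.toReal_le_of_le_ofReal hτ.le (h4.trans hF.le)

theorem asym (ν : Measure B) [IsProbabilityMeasure ν] (c : ℝ) (hc : ∀ b, ν.real {b} ≤ c)
    (hc0 : 0 < c) (hc1 : c < 1) {k s : ℕ} (e : Fin s → Fin k → B) (he : ∀ v l, 0 < ν.real {e v l})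
    (ε : ℝ) (hε : 0 < ε) :
    ∃ C δ : ℝ, 0 < C ∧ 0 < δ ∧ ∀ (n m : ℕ) (hk : k ≤ m), (m : ℝ) * c ^ ((1 - ε) * n) ≤ 1 →
      (law ν n m).real {ω | ¬ Good hk e ω} ≤ C * Real.exp (-(δ * n)) := by
  classical
  set τ : ℝ := (1 / 4 : ℝ) ^ (2 / ε) with hτ
  have hτ0 : 0 < τ := by positivity
  obtain ⟨F, hF⟩ := exists_finset ν (τ / (k + 1)) (by positivity)
  have hkF : k * ν.real (F : Set B)ᶜ ≤ τ := by
    have h1 : (k : ℝ) * ν.real (F : Set B)ᶜ ≤ k * (τ / (k + 1)) :=
      mul_le_mul_of_nonneg_left hF (Nat.cast_nonneg k)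
    refine h1.trans ?_
    rw [mul_div_assoc', div_le_iff₀ (by positivity)]
    nlinarith
  -- the smallest probability of a column
  obtain ⟨a, ha0, ha⟩ : ∃ a : ℝ, 0 < a ∧ ∀ v, a ≤ ∏ l, ν.real {e v l} := by
    rcases Nat.eq_zero_or_pos s with rfl | hs
    · exact ⟨1, one_pos, fun v => v.elim0⟩
    · have : Nonempty (Fin s) := ⟨⟨0, hs⟩⟩
      obtain ⟨v₀, _, hv₀⟩ := Finset.exists_min_image (Finset.univ : Finset (Fin s)) (fun v => ∏ l, ν.real {e v l})
        Finset.univ_nonempty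
      exact ⟨_, Finset.prod_pos (fun l _ => he v₀ l), fun v => hv₀ v (Finset.mem_univ _)⟩
  set q : ℝ := max (max (1 - a) (1 / 2)) (c ^ (ε / 2)) with hq
  have hq1 : q < 1 := by
    refine max_lt (max_lt (by linarith) (by norm_num)) ?_
    exact Real.rpow_lt_one hc0.le hc1 (by linarith)
  have hq0 : 0 < q := lt_of_lt_of_le (by norm_num : (0 : ℝ) < 1 / 2) ((le_max_right _ _).trans (le_max_left _ _))
  set f : ℕ := F.card ^ k with hf
  refine ⟨s + 1 + c ^ (-(1 + f) : ℝ), -Real.log q, by positivity, by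
    have := Real.log_neg hq0 hq1
    linarith, ?_⟩
  intro n m hk hm
  have hexp : Real.exp (-(-Real.log q * n)) = q ^ n := by
    rw [neg_mul, neg_neg, mul_comm, Real.exp_nat_mul, Real.exp_log hq0]
  rw [hexp]
  set r : ℕ := ⌈ε / 2 * n⌉₊ with hr
  have hr1 : ε / 2 * n ≤ r := Nat.le_ceil _
  have hr2 : (r : ℝ) ≤ ε / 2 * n + 1 := (Nat.ceil_lt_add_one (by positivity)).le
  refine (good_bound_real ν c hc hc0.le hc1.le n hk F r e).trans ?_
  have b1 : ∑ v, (1 - ∏ l, ν.real {e v l}) ^ n ≤ s * q ^ n := by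
    have : ∀ v, (1 - ∏ l, ν.real {e v l}) ^ n ≤ q ^ n := by
      intro v
      apply pow_le_pow_left₀
      · exact sub_nonneg.2 (Finset.prod_le_one (fun l _ => measureReal_nonneg) (fun l _ => measureReal_le_one))
      · exact le_trans (by linarith [ha v]) ((le_max_left _ _).trans (le_max_left _ _))
    refine (Finset.sum_le_sum (fun v _ => this v)).trans ?_
    simp
  have b2 : 2 ^ n * (k * ν.real (F : Set B)ᶜ) ^ r ≤ q ^ n := by
    have h1 : (k * ν.real (F : Set B)ᶜ) ^ r ≤ (1 / 4 : ℝ) ^ n := by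
      calc (k * ν.real (F : Set B)ᶜ) ^ r ≤ τ ^ r := pow_le_pow_left₀ (by positivity) hkF r
        _ = τ ^ (r : ℝ) := (Real.rpow_natCast _ _).symm
        _ ≤ τ ^ (ε / 2 * n) := Real.rpow_le_rpow_of_exponent_ge hτ0 (by
            rw [hτ]
            exact Real.rpow_le_one (by norm_num) (by norm_num) (by positivity)) hr1
        _ = (1 / 4 : ℝ) ^ n := by
            rw [hτ, ← Real.rpow_mul (by norm_num), ← Real.rpow_natCast]
            congr 1
            field_simp
    calc 2 ^ n * (k * ν.real (F : Set B)ᶜ) ^ r ≤ 2 ^ n * (1 / 4 : ℝ) ^ n := by gcongr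
      _ = (1 / 2 : ℝ) ^ n := by rw [← mul_pow]; norm_num
      _ ≤ q ^ n := pow_le_pow_left₀ (by norm_num) ((le_max_right _ _).trans (le_max_left _ _)) n
  have b3 : m * c ^ (n - r - f) ≤ c ^ (-(1 + f) : ℝ) * q ^ n := by
    have h1 : c ^ (n - r - f) ≤ c ^ ((1 - ε) * n) * (c ^ (-(1 + f) : ℝ) * c ^ (ε / 2 * n)) := by
      rw [← Real.rpow_add hc0, ← Real.rpow_add hc0, ← Real.rpow_natCast]
      apply Real.rpow_le_rpow_of_exponent_ge hc0 hc1.le
      have h2 : (n : ℝ) ≤ ((n - r - f : ℕ) : ℝ) + r + f := by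
        have : n ≤ (n - r - f) + r + f := by omega
        exact_mod_cast this
      nlinarith
    calc (m : ℝ) * c ^ (n - r - f) ≤ m * (c ^ ((1 - ε) * n) * (c ^ (-(1 + f) : ℝ) * c ^ (ε / 2 * n))) := by
          gcongr
      _ = (m * c ^ ((1 - ε) * n)) * (c ^ (-(1 + f) : ℝ) * c ^ (ε / 2 * n)) := by ring
      _ ≤ 1 * (c ^ (-(1 + f) : ℝ) * c ^ (ε / 2 * n)) := by gcongr
      _ = c ^ (-(1 + f) : ℝ) * (c ^ (ε / 2)) ^ n := by
          rw [one_mul, Real.rpow_mul hc0.le, Real.rpow_natCast]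
      _ ≤ c ^ (-(1 + f) : ℝ) * q ^ n := by
          gcongr
          exact le_max_right _ _
  calc _ ≤ s * q ^ n + q ^ n + c ^ (-(1 + f) : ℝ) * q ^ n := add_le_add (add_le_add b1 b2) b3
    _ = _ := by ring

/-- with many tuples, a constant tuple appears -/
theorem no_const (ν : Measure B) [IsProbabilityMeasure ν] (b : B) (n m : ℕ) :
    (law ν n m).real {ω | ¬ ∃ j, ω j = fun _ => b} ≤ Real.exp (-(m * ν.real {b} ^ n)) := by
  classical
  have h1 : {ω : Fin m → Fin n → B | ¬ ∃ j, ω j = fun _ => b} = Set.pi Set.univ (fun _ => {fun _ => b}ᶜ) := by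
    ext ω
    constructor
    · intro h j _ hj
      exact h ⟨j, hj⟩
    · rintro h ⟨j, hj⟩
      exact h j trivial hj
  have h2 : law ν n m {ω | ¬ ∃ j, ω j = fun _ => b} = ENNReal.ofReal ((1 - ν.real {b} ^ n) ^ m) := by
    rw [h1]
    unfold law
    rw [Measure.pi_pi, Finset.prod_const, Finset.card_univ, Fintype.card_fin, prob_compl_eq_one_sub
      (MeasurableSet.of_discrete), ← Set.univ_pi_singleton, Measure.pi_pi, Finset.prod_const, Finset.card_univ,
      Fintype.card_fin, ← ofReal_measureReal, ← ENNReal.ofReal_pow measureReal_nonneg, ← ENNReal.ofReal_one,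
      ← ENNReal.ofReal_sub _ (by positivity), ← ENNReal.ofReal_pow (sub_nonneg.2 (pow_le_one₀ measureReal_nonneg
      measureReal_le_one))]
  have h3 : 0 ≤ 1 - ν.real {b} ^ n := sub_nonneg.2 (pow_le_one₀ measureReal_nonneg measureReal_le_one)
  rw [Measure.real, h2, ENNReal.toReal_ofReal (pow_nonneg h3 m)]
  calc (1 - ν.real {b} ^ n) ^ m ≤ (Real.exp (-(ν.real {b} ^ n))) ^ m :=
        pow_le_pow_left₀ h3 (Real.one_sub_le_exp_neg _) m
    _ = _ := by
        rw [← Real.exp_nat_mul]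
        congr 1
        ring

end Pool.Agent.L5helper59.BP
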