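import Pool.Agent.L5helper59.BP.Sharp
import Pool.Agent.L5helper59.BP.Asym

/-!
# Random tuples: pp-definitions from good families of tuples, and two concrete structures
-/

set_option autoImplicit false

namespace Pool.Agent.L5helper59.BP

open Pool.Agent.W994.AR

variable {B : Type}

/-- The relation generated by the tuples `ω j`: the union of their orbits. -/
def rel (G : Subgroup (Equiv.Perm B)) {n m : ℕ} (ω : Fin m → Fin n → B) : Set (Fin n → B) :=
  {x | ∃ j, Same G (ω j) x}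

theorem rel_invar (G : Subgroup (Equiv.Perm B)) {n m : ℕ} (ω : Fin m → Fin n → B) : Invar G (rel G ω) := by
  rintro g hg x ⟨j, h⟩
  exact ⟨j, h.trans ⟨g, hg, fun _ => rfl⟩⟩

theorem pp_good {ι : Type} {ar : ι → ℕ} {𝔸 : Str ι ar B} (G : Subgroup (Equiv.Perm B)) (i : ι)
    {m k s : ℕ} (hk : k ≤ m) (ω : Fin m → Fin (ar i) → B) (hω : 𝔸 i = rel G ω) (e : Fin s → Fin k → B)
    (h : Good hk e ω) : PP 𝔸 (gen G e) := by
  obtain ⟨hcol, hrow⟩ := h
  choose c hc using hcol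
  let P : Set (Fin (ar i) × Fin (ar i)) := {p | ∀ l, ω (Fin.castLE hk l) p.1 = ω (Fin.castLE hk l) p.2}
  have h1 : PP 𝔸 {z : Fin s ⊕ Fin (ar i) → B | z ∘ (Sum.inr : Fin (ar i) → Fin s ⊕ Fin (ar i)) ∈ 𝔸 i} :=
    PP.rel i _
  have h2 : PP 𝔸 {z : Fin s ⊕ Fin (ar i) → B | ∀ v ∈ (Set.univ : Set (Fin s)), z ∈
      {z : Fin s ⊕ Fin (ar i) → B | z (Sum.inl v) = z (Sum.inr (c v))}} :=
    PP.iInter _ Set.finite_univ _ (fun v _ => PP.eq _ _)
  have h3 : PP 𝔸 {z : Fin s ⊕ Fin (ar i) → B | ∀ p ∈ P, z ∈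
      {z : Fin s ⊕ Fin (ar i) → B | z (Sum.inr p.1) = z (Sum.inr p.2)}} :=
    PP.iInter _ (Set.toFinite _) _ (fun p _ => PP.eq _ _)
  convert ((h1.inter h2).inter h3).ex using 1
  ext x
  constructor
  · rintro ⟨l, g, hg, hx⟩
    refine ⟨fun u => g (ω (Fin.castLE hk l) u), ⟨?_, fun v _ => ?_⟩, fun p hp => ?_⟩
    · show (fun u => g (ω (Fin.castLE hk l) u)) ∈ 𝔸 i
      rw [hω]
      exact ⟨Fin.castLE hk l, g, hg, fun _ => rfl⟩
    · show x v = g (ω (Fin.castLE hk l) (c v))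
      rw [hc v l]
      exact (hx v).symm
    · show g (ω (Fin.castLE hk l) p.1) = g (ω (Fin.castLE hk l) p.2)
      rw [hp l]
  · rintro ⟨y, ⟨hy, hxy⟩, hP⟩
    replace hy : y ∈ 𝔸 i := hy
    rw [hω] at hy
    obtain ⟨j, g, hg, hgy⟩ := hy
    have hj : (j : ℕ) < k := by
      by_contra hj
      obtain ⟨a, b, hab, hne⟩ := hrow j (not_lt.1 hj)
      apply hne
      have h4 : y a = y b := hP (a, b) hab
      rw [← hgy, ← hgy] at h4
      exact g.injective h4
    refine ⟨⟨j, hj⟩, g, hg, fun v => ?_⟩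
    have h5 : x v = y (c v) := hxy v trivial
    rw [h5, ← hgy]
    exact congrArg g (hc v ⟨j, hj⟩).symm

theorem k3_of_good_three {ι : Type} {ar : ι → ℕ} {𝔸 : Str ι ar B} (G : Subgroup (Equiv.Perm B)) (i : ι)
    {m : ℕ} (hk : 3 ≤ m) (ω : Fin m → Fin (ar i) → B) (hω : 𝔸 i = rel G ω) {p q : B} (hpq : p ≠ q)
    (h : Good hk (e3 p q) ω) : PPConstructsK3 𝔸 :=
  k3_of_three hpq (pp_good G i hk ω hω _ h)

theorem k3_of_good_two {ι : Type} {ar : ι → ℕ} {𝔸 : Str ι ar B} (G : Subgroup (Equiv.Perm B)) (i : ι)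
    {m : ℕ} (hk : 2 ≤ m) (ω : Fin m → Fin (ar i) → B) (hω : 𝔸 i = rel G ω) {p q r : B} (hpq : p ≠ q)
    (hqr : q ≠ r) {g₀ : Equiv.Perm B} (hg₀ : g₀ ∈ G) (hp : g₀ p = p) (hq : g₀ q = r)
    (h : Good hk (e2 p q r) ω) : PPConstructsK3 𝔸 :=
  k3_of_two hpq hqr hg₀ hp hq (pp_good G i hk ω hω _ h)

/-- in a homogeneous structure, every infinite set contains points `q ≠ r` of the same type over a point `p` -/
theorem exists_pqr {σ : Type} [Finite σ] {arB : σ → ℕ} {𝔹 : Str σ arB B} (h𝔹 : Homogeneous 𝔹) {Y : Set B}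
    (hY : Y.Infinite) : ∃ p ∈ Y, ∃ q ∈ Y, ∃ r ∈ Y, p ≠ q ∧ q ≠ r ∧ ∃ g ∈ autGroup 𝔹, g p = p ∧ g q = r := by
  obtain ⟨p, hp⟩ := hY.nonempty
  have h1 : (Y \ {p}).Infinite := hY.sdiff (Set.finite_singleton p)
  have : Infinite (Y \ {p} : Set B) := h1.to_subtype
  have : Finite (Orb (autGroup 𝔹) (Fin 2)) := hom_finite h𝔹 (Fin 2)
  obtain ⟨⟨q, hq, hqp⟩, ⟨r, hr, hrp⟩, hne, heq⟩ := Finite.exists_ne_map_eq_of_infinite
    (fun x : (Y \ {p} : Set B) => (Quotient.mk (orb (autGroup 𝔹) (Fin 2)) ![p, x.1] : Orb (autGroup 𝔹) (Fin 2)))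
  obtain ⟨g, hg, h2⟩ : Same (autGroup 𝔹) ![p, q] ![p, r] := Quotient.exact heq
  exact ⟨p, hp, q, hq, r, hr, fun h => hqp h.symm, fun h => hne (Subtype.ext h), g, hg, h2 0, h2 1⟩

/-! ## a finite set with names for all the elements -/

/-- The finite set `{0, ..., N - 1}` with names for all the elements. -/
def named (N : ℕ) : Str (Fin N) (fun _ => 1) (Fin N) := fun b => {v | v 0 = b}

theorem named_aut (N : ℕ) : autGroup (named N) = ⊥ := by
  rw [eq_bot_iff]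
  intro g hg
  rw [Subgroup.mem_bot]
  ext b
  have h1 : (fun _ : Fin 1 => g b) ∈ named N b := (hg b (fun _ => b)).1 rfl
  exact congrArg Fin.val (show g b = b from h1)

theorem named_homogeneous (N : ℕ) : Homogeneous (named N) := by
  intro F h _ h2
  refine ⟨1, (autGroup (named N)).one_mem, fun x hx => ?_⟩
  have h1 : (fun _ : Fin 1 => h x) ∈ named N x := (h2 x (fun _ => x) (fun _ => hx)).1 rfl
  exact (show h x = x from h1).symm

/-- finite structures are finitely bounded -/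
theorem finitelyBounded_of_finite {σ : Type} [Finite σ] {ar : σ → ℕ} (𝔹 : Str σ ar B) [Finite B] :
    FinitelyBounded 𝔹 := by
  classical
  have := Fintype.ofFinite B
  set K := Fintype.card B + 1 with hK
  refine ⟨{Y | Y.1 ≤ K ∧ ¬ Embeds Y.2 𝔹}, ?_, ?_⟩
  · have h1 : {Y : Σ n : ℕ, Str σ ar (Fin n) | Y.1 ≤ K ∧ ¬ Embeds Y.2 𝔹} ⊆
        ⋃ n ∈ Set.Iic K, Set.range (fun Z : Str σ ar (Fin n) => (⟨n, Z⟩ : Σ n : ℕ, Str σ ar (Fin n))) := by
      rintro ⟨n, Z⟩ hZ
      simp only [Set.mem_iUnion]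
      exact ⟨n, hZ.1, Z, rfl⟩
    refine Set.Finite.subset (Set.Finite.biUnion (Set.finite_Iic K) (fun n _ => ?_)) h1
    have := finite_str (σ := σ) ar n
    exact Set.finite_range _
  · intro n 𝕏
    constructor
    · intro h Y hY hYX
      exact hY.2 (hYX.trans h)
    · intro h
      by_contra hX
      by_cases hn : n ≤ K
      · exact h ⟨n, 𝕏⟩ ⟨hn, hX⟩ ⟨id, Function.injective_id, fun _ _ => Iff.rfl⟩
      · -- the substructure on the first `K` points
        have hKn : K ≤ n := (not_le.1 hn).le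
        let Y : Str σ ar (Fin K) := fun i => {v | (fun j => Fin.castLE hKn (v j)) ∈ 𝕏 i}
        have hYX : Embeds Y 𝕏 := ⟨Fin.castLE hKn, Fin.castLE_injective hKn, fun _ _ => Iff.rfl⟩
        refine h ⟨K, Y⟩ ⟨le_refl _, ?_⟩ hYX
        rintro ⟨e, he, _⟩
        have h1 : Fintype.card (Fin K) ≤ Fintype.card B := Fintype.card_le_of_injective e he
        rw [Fintype.card_fin] at h1
        omega

/-! ## the pure set -/

/-- The countably infinite set without any relations. -/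
def pureSet : Str Empty (fun x => x.elim) ℕ := fun x => x.elim

theorem pure_aut : autGroup pureSet = ⊤ := by
  rw [eq_top_iff]
  intro g _ i
  exact i.elim

theorem pure_homogeneous : Homogeneous pureSet := by
  intro F h h1 _
  obtain ⟨g, hg⟩ := exists_perm (V := F) (fun x => x.1) (fun x => h x.1) (by
    intro i j
    exact ⟨fun hh => congrArg h hh, fun hh => h1 _ i.2 _ j.2 hh⟩)
  exact ⟨g, fun i => i.elim, fun x hx => hg ⟨x, hx⟩⟩

theorem pure_bounded : FinitelyBounded pureSet := by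
  refine ⟨∅, Set.finite_empty, fun n 𝕏 => ⟨fun _ Y hY => hY.elim, fun _ => ⟨fun i => i, ?_, fun i => i.elim⟩⟩⟩
  intro i j hij
  exact Fin.ext hij

end Pool.Agent.L5helper59.BP
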