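import Mathlib

/-!
# Random tuples
-/

set_option autoImplicit false

namespace Pool.Agent.L5helper59.BP

open MeasureTheory ENNReal

section one
variable {X : Type} [Countable X] [MeasurableSpace X] [DiscreteMeasurableSpace X]

/-- coordinates which are determined by the others -/
theorem det_le (ν : Measure X) [IsProbabilityMeasure ν] (c : ℝ≥0∞) (hc : ∀ b, ν {b} ≤ c) {n : ℕ}
    (S : Finset (Fin n)) (ρ : Fin n → Fin n) (hρ : ∀ i ∈ S, ρ i ∉ S) :
    Measure.pi (fun _ : Fin n => ν) {t | ∀ i ∈ S, t i = t (ρ i)} ≤ c ^ S.card := by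
  classical
  set μ : Fin n → Measure X := fun _ => ν
  set E : Set (Fin n → X) := {t | ∀ i ∈ S, t i = t (ρ i)} with hE
  have hmeas : ∀ f : (Fin n → X) → ℝ≥0∞, Measurable f := fun f => Measurable.of_discrete
  have h1 : ∫⁻ x, E.indicator 1 x ∂Measure.pi μ ≤ ∫⁻ x, (fun _ => c ^ S.card) x ∂Measure.pi μ := by
    refine lintegral_le_of_lmarginal_le S (hmeas _) (hmeas _) ?_
    intro x
    show ∫⁻ y : ∀ i : S, X, E.indicator 1 (Function.updateFinset x S y) ∂Measure.pi (fun i : S => μ i) ≤
      ∫⁻ y : ∀ i : S, X, c ^ S.card ∂Measure.pi (fun i : S => μ i)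
    rw [lintegral_const]
    rw [measure_univ, mul_one]
    calc ∫⁻ y : ∀ i : S, X, E.indicator 1 (Function.updateFinset x S y) ∂Measure.pi (fun i : S => μ i)
        ≤ ∫⁻ y : ∀ i : S, X, ({fun i : S => x (ρ i)} : Set (∀ i : S, X)).indicator 1 y
          ∂Measure.pi (fun i : S => μ i) := by
          apply lintegral_mono
          intro y
          by_cases hy : Function.updateFinset x S y ∈ E
          · have : y ∈ ({fun i : S => x (ρ i)} : Set (∀ i : S, X)) := by
              rw [Set.mem_singleton_iff]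
              funext i
              have h2 := hy i.1 i.2
              rw [Function.updateFinset_def] at h2
              simp only [i.2, dif_pos, hρ i.1 i.2, dif_neg, not_false_iff] at h2
              exact h2
            simp only [Set.indicator_of_mem hy, Set.indicator_of_mem this]
            exact le_refl _
          · simp only [Set.indicator_of_notMem hy]
            exact bot_le
      _ = Measure.pi (fun i : S => μ i) {fun i : S => x (ρ i)} := by
          rw [lintegral_indicator_one (MeasurableSet.of_discrete)]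
      _ = ∏ i : S, μ i {x (ρ i)} := by
          rw [← Set.univ_pi_singleton, Measure.pi_pi]
      _ ≤ ∏ _i : S, c := Finset.prod_le_prod' (fun i _ => hc _)
      _ = c ^ S.card := by simp
  rw [lintegral_indicator_one (MeasurableSet.of_discrete), lintegral_const, measure_univ, mul_one] at h1
  exact h1

/-- a fixed coordinate is exceptional with small probability -/
theorem coord_le (ν : Measure X) [IsProbabilityMeasure ν] (a : ℝ≥0∞) {m : ℕ} (j : Fin m)
    (E : Set (Fin m → X)) (h : ∀ ω : Fin m → X, ν {t | Function.update ω j t ∈ E} ≤ a) :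
    Measure.pi (fun _ : Fin m => ν) E ≤ a := by
  classical
  set μ : Fin m → Measure X := fun _ => ν
  have hmeas : ∀ f : (Fin m → X) → ℝ≥0∞, Measurable f := fun f => Measurable.of_discrete
  have h1 : ∫⁻ x, E.indicator 1 x ∂Measure.pi μ ≤ ∫⁻ x, (fun _ => a) x ∂Measure.pi μ := by
    refine lintegral_le_of_lmarginal_le {j} (hmeas _) (hmeas _) ?_
    rw [lmarginal_singleton, lmarginal_singleton]
    intro x
    show ∫⁻ t, E.indicator 1 (Function.update x j t) ∂ν ≤ ∫⁻ t, a ∂ν
    rw [lintegral_const, measure_univ, mul_one]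
    refine le_trans (le_of_eq ?_) (h x)
    rw [← lintegral_indicator_one (MeasurableSet.of_discrete)]
    rfl
  rw [lintegral_indicator_one (MeasurableSet.of_discrete), lintegral_const, measure_univ, mul_one] at h1
  exact h1

/-- a random tuple is constant on blocks with small probability -/
theorem block_le (ν : Measure X) [IsProbabilityMeasure ν] (c : ℝ≥0∞) (hc : ∀ b, ν {b} ≤ c) (hc1 : c ≤ 1)
    {n : ℕ} {Y : Type} [DecidableEq Y] (T : Fin n → Y) (D : Finset Y) (r : ℕ)
    (hr : (Finset.univ.filter (fun i => T i ∉ D)).card ≤ r) :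
    Measure.pi (fun _ : Fin n => ν) {t | ∀ i i', T i = T i' → t i = t i'} ≤ c ^ (n - r - D.card) := by
  classical
  let rep : Y → Fin n → Fin n := fun y i => if h : ∃ i', T i' = y then h.choose else i
  have hrep : ∀ i, T (rep (T i) i) = T i := by
    intro i
    have h : ∃ i', T i' = T i := ⟨i, rfl⟩
    simp only [rep, dif_pos h]
    exact h.choose_spec
  have hrep2 : ∀ i j, T i = T j → rep (T i) i = rep (T j) j := by
    intro i j hij
    have h : ∃ i', T i' = T i := ⟨i, rfl⟩
    have h' : ∃ i', T i' = T j := ⟨j, rfl⟩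
    simp only [rep, dif_pos h, dif_pos h']
    congr 1
    simp only [hij]
  let S : Finset (Fin n) := Finset.univ.filter (fun i => rep (T i) i ≠ i)
  have hS : ∀ i ∈ S, (fun i => rep (T i) i) i ∉ S := by
    intro i _ h
    have h2 := (Finset.mem_filter.1 h).2
    exact h2 (hrep2 _ _ (hrep i))
  have h1 := det_le ν c hc S (fun i => rep (T i) i) hS
  have hcard : n - r - D.card ≤ S.card := by
    have h3 : Finset.univ ⊆ (S ∪ Finset.univ.filter (fun i => T i ∉ D)) ∪
        (Finset.univ.filter (fun i => T i ∈ D ∧ rep (T i) i = i)) := by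
      intro i _
      by_cases h4 : rep (T i) i = i
      · by_cases h5 : T i ∈ D
        · exact Finset.mem_union_right _ (Finset.mem_filter.2 ⟨Finset.mem_univ _, h5, h4⟩)
        · exact Finset.mem_union_left _ (Finset.mem_union_right _
            (Finset.mem_filter.2 ⟨Finset.mem_univ _, h5⟩))
      · exact Finset.mem_union_left _ (Finset.mem_union_left _
            (Finset.mem_filter.2 ⟨Finset.mem_univ _, h4⟩))
    have h4 : (Finset.univ.filter (fun i => T i ∈ D ∧ rep (T i) i = i)).card ≤ D.card := by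
      apply Finset.card_le_card_of_injOn T
      · intro i hi
        exact (Finset.mem_filter.1 (Finset.mem_coe.1 hi)).2.1
      · intro i hi j hj hij
        have h5 := (Finset.mem_filter.1 (Finset.mem_coe.1 hi)).2.2
        have h6 := (Finset.mem_filter.1 (Finset.mem_coe.1 hj)).2.2
        rw [← h5, ← h6]
        exact hrep2 _ _ hij
    have h5 := Finset.card_le_card h3
    rw [Finset.card_univ, Fintype.card_fin] at h5
    have h6 := Finset.card_union_le (S ∪ Finset.univ.filter (fun i => T i ∉ D))
      (Finset.univ.filter (fun i => T i ∈ D ∧ rep (T i) i = i))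
    have h7 := Finset.card_union_le S (Finset.univ.filter (fun i => T i ∉ D))
    omega
  refine le_trans (measure_mono ?_) (h1.trans (pow_le_pow_right_of_le_one' hc1 hcard))
  intro t ht i _
  exact ht _ _ (hrep i).symm

end one

section two
variable {B : Type} [Countable B] [MeasurableSpace B] [DiscreteMeasurableSpace B]

/-- The law of `m` independent tuples of length `n` with independent entries of the law `ν`. -/
noncomputable def law (ν : Measure B) (n m : ℕ) : Measure (Fin m → Fin n → B) :=
  Measure.pi (fun _ => Measure.pi (fun _ => ν))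

instance (ν : Measure B) [IsProbabilityMeasure ν] (n m : ℕ) : IsProbabilityMeasure (law ν n m) := by
  unfold law
  infer_instance

omit [Countable B] [DiscreteMeasurableSpace B] in
theorem law_singleton (ν : Measure B) [IsProbabilityMeasure ν] (n m : ℕ) (ω : Fin m → Fin n → B) :
    law ν n m {ω} = ∏ j, ∏ i, ν {ω j i} := by
  unfold law
  rw [← Set.univ_pi_singleton, Measure.pi_pi]
  refine Finset.prod_congr rfl (fun j _ => ?_)
  rw [← Set.univ_pi_singleton, Measure.pi_pi]

theorem law_swap (ν : Measure B) [IsProbabilityMeasure ν] (n m : ℕ) (E : Set (Fin m → Fin n → B)) :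
    law ν n m E = law ν m n {ω | (fun j i => ω i j) ∈ E} := by
  have h1 : (law ν m n).map (fun ω j i => ω i j) = law ν n m := by
    apply Measure.ext_of_singleton
    intro ω
    rw [Measure.map_apply (Measurable.of_discrete) (MeasurableSet.of_discrete), law_singleton]
    have : (fun (ω : Fin n → Fin m → B) (j : Fin m) (i : Fin n) => ω i j) ⁻¹' {ω} = {fun i j => ω j i} := by
      ext ω'
      constructor
      · intro h
        have h' : (fun j i => ω' i j) = ω := h
        rw [← h']
        rfl
      · intro h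
        have h' : ω' = fun i j => ω j i := h
        rw [h']
        rfl
    rw [this, law_singleton]
    exact Finset.prod_comm
  rw [← h1, Measure.map_apply (Measurable.of_discrete) (MeasurableSet.of_discrete)]
  rfl

/-- events for all the columns in a set -/
theorem cols_le (ν : Measure B) [IsProbabilityMeasure ν] (n m : ℕ) (S : Finset (Fin n)) (D : Set (Fin m → B)) :
    law ν n m {ω | ∀ i ∈ S, (fun j => ω j i) ∈ D} = (Measure.pi (fun _ : Fin m => ν) D) ^ S.card := by
  classical
  rw [law_swap]
  have h1 : {ω : Fin n → Fin m → B | (fun j i => ω i j) ∈ {ω : Fin m → Fin n → B | ∀ i ∈ S, (fun j => ω j i) ∈ D}} =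
      Set.pi Set.univ (fun i => if i ∈ S then D else Set.univ) := by
    ext ω
    constructor
    · intro h i _
      show ω i ∈ (if i ∈ S then D else Set.univ)
      by_cases hi : i ∈ S
      · rw [if_pos hi]
        exact h i hi
      · rw [if_neg hi]
        trivial
    · intro h i hi
      have := h i trivial
      simp only [if_pos hi] at this
      exact this
  rw [h1]
  unfold law
  rw [Measure.pi_pi]
  have h2 : ∀ i : Fin n, Measure.pi (fun _ : Fin m => ν) (if i ∈ S then D else Set.univ) =
      if i ∈ S then Measure.pi (fun _ : Fin m => ν) D else 1 := by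
    intro i
    split_ifs
    · rfl
    · exact measure_univ
  simp only [h2]
  rw [Finset.prod_ite_mem, Finset.univ_inter, Finset.prod_const]

theorem missing (ν : Measure B) [IsProbabilityMeasure ν] (n : ℕ) {m k : ℕ} (hk : k ≤ m) (e : Fin k → B) :
    law ν n m {ω | ∀ i, ¬ ∀ l : Fin k, ω (Fin.castLE hk l) i = e l} = (1 - ∏ l, ν {e l}) ^ n := by
  classical
  have h1 := cols_le ν n m Finset.univ {x | ¬ ∀ l : Fin k, x (Fin.castLE hk l) = e l}
  have h2 : Measure.pi (fun _ : Fin m => ν) {x | ∀ l : Fin k, x (Fin.castLE hk l) = e l} = ∏ l, ν {e l} := by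
    have h3 : {x : Fin m → B | ∀ l : Fin k, x (Fin.castLE hk l) = e l} =
        Set.pi Set.univ (fun j : Fin m => if h : (j : ℕ) < k then {e ⟨j, h⟩} else Set.univ) := by
      ext x
      constructor
      · intro h j _
        show x j ∈ (if h : (j : ℕ) < k then {e ⟨j, h⟩} else Set.univ)
        split_ifs with hj
        · exact h ⟨j, hj⟩
        · trivial
      · intro h l
        have := h (Fin.castLE hk l) trivial
        simp only [Fin.val_castLE, l.2, dif_pos] at this
        exact this
    rw [h3, Measure.pi_pi]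
    have h4 : ∀ j : Fin m, ν (if h : (j : ℕ) < k then {e ⟨j, h⟩} else Set.univ) =
        if h : (j : ℕ) < k then ν {e ⟨j, h⟩} else 1 := by
      intro j
      split_ifs
      · rfl
      · exact measure_univ
    simp only [h4]
    obtain ⟨d, rfl⟩ := Nat.exists_eq_add_of_le hk
    rw [Fin.prod_univ_add]
    simp
  have h3 : Measure.pi (fun _ : Fin m => ν) {x | ¬ ∀ l : Fin k, x (Fin.castLE hk l) = e l} = 1 - ∏ l, ν {e l} := by
    rw [← h2]
    exact prob_compl_eq_one_sub (MeasurableSet.of_discrete)
  rw [h3, Finset.card_univ, Fintype.card_fin] at h1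
  rw [← h1]
  congr 1
  ext ω
  constructor
  · intro h i _
    exact h i
  · intro h i
    exact h i (Finset.mem_univ _)

theorem exceptional (ν : Measure B) [IsProbabilityMeasure ν] (n : ℕ) {m k : ℕ} (hk : k ≤ m) (F : Set B) (r : ℕ) :
    law ν n m {ω | r ≤ Nat.card {i // ∃ l : Fin k, ω (Fin.castLE hk l) i ∉ F}} ≤
      2 ^ n * (k * ν Fᶜ) ^ r := by
  classical
  let D : Set (Fin m → B) := {x | ∃ l : Fin k, x (Fin.castLE hk l) ∉ F}
  have hD : Measure.pi (fun _ : Fin m => ν) D ≤ k * ν Fᶜ := by
    have h1 : D ⊆ ⋃ l : Fin k, {x : Fin m → B | x (Fin.castLE hk l) ∉ F} := by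
      rintro x ⟨l, hl⟩
      exact Set.mem_iUnion.2 ⟨l, hl⟩
    refine (measure_mono h1).trans ((measure_iUnion_le _).trans ?_)
    rw [tsum_fintype]
    have h2 : ∀ l : Fin k, Measure.pi (fun _ : Fin m => ν) {x : Fin m → B | x (Fin.castLE hk l) ∉ F} ≤ ν Fᶜ := by
      intro l
      apply coord_le ν _ (Fin.castLE hk l)
      intro ω
      apply measure_mono
      intro t ht
      have : Function.update ω (Fin.castLE hk l) t (Fin.castLE hk l) ∉ F := ht
      rw [Function.update_self] at this
      exact this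
    refine (Finset.sum_le_sum (fun l _ => h2 l)).trans ?_
    simp
  have h1 : {ω : Fin m → Fin n → B | r ≤ Nat.card {i // ∃ l : Fin k, ω (Fin.castLE hk l) i ∉ F}} ⊆
      ⋃ S ∈ Finset.powersetCard r (Finset.univ : Finset (Fin n)), {ω | ∀ i ∈ S, (fun j => ω j i) ∈ D} := by
    intro ω hω
    have h2 : Nat.card {i // ∃ l : Fin k, ω (Fin.castLE hk l) i ∉ F} =
        (Finset.univ.filter (fun i => ∃ l : Fin k, ω (Fin.castLE hk l) i ∉ F)).card := by
      rw [Nat.card_eq_fintype_card, Fintype.card_subtype]
    have h3 : r ≤ (Finset.univ.filter (fun i => ∃ l : Fin k, ω (Fin.castLE hk l) i ∉ F)).card := by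
      rw [← h2]
      exact hω
    obtain ⟨S, hS, hc⟩ := Finset.exists_subset_card_eq h3
    refine Set.mem_biUnion (Finset.mem_coe.2 (Finset.mem_powersetCard.2 ⟨Finset.subset_univ _, hc⟩)) ?_
    intro i hi
    exact (Finset.mem_filter.1 (hS hi)).2
  refine (measure_mono h1).trans ((measure_biUnion_finset_le _ _).trans ?_)
  have h2 : ∀ S ∈ Finset.powersetCard r (Finset.univ : Finset (Fin n)),
      law ν n m {ω | ∀ i ∈ S, (fun j => ω j i) ∈ D} ≤ (k * ν Fᶜ) ^ r := by
    intro S hS
    rw [cols_le, (Finset.mem_powersetCard.1 hS).2]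
    exact pow_le_pow_left' hD r
  refine (Finset.sum_le_sum h2).trans ?_
  rw [Finset.sum_const, Finset.card_powersetCard, Finset.card_univ, Fintype.card_fin, nsmul_eq_mul]
  gcongr
  exact_mod_cast Nat.choose_le_two_pow n r

omit [Countable B] [DiscreteMeasurableSpace B] in
theorem empty_le {X : Type} [MeasurableSpace X] (μ : Measure X) (a : ℝ≥0∞) {E : Set X} (h : ∀ t, t ∉ E) : μ E ≤ a := by
  have : E = ∅ := Set.eq_empty_of_forall_notMem h
  rw [this, measure_empty]
  exact bot_le

theorem constant (ν : Measure B) [IsProbabilityMeasure ν] (c : ℝ≥0∞) (hc : ∀ b, ν {b} ≤ c) (hc1 : c ≤ 1)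
    (n : ℕ) {m k : ℕ} (hk : k ≤ m) (F : Finset B) (r : ℕ) :
    law ν n m {ω | Nat.card {i // ∃ l : Fin k, ω (Fin.castLE hk l) i ∉ F} ≤ r ∧ ∃ j : Fin m, k ≤ (j : ℕ) ∧
      ∀ i i', (∀ l : Fin k, ω (Fin.castLE hk l) i = ω (Fin.castLE hk l) i') → ω j i = ω j i'} ≤
      m * c ^ (n - r - F.card ^ k) := by
  classical
  have h1 : {ω : Fin m → Fin n → B | Nat.card {i // ∃ l : Fin k, ω (Fin.castLE hk l) i ∉ F} ≤ r ∧
      ∃ j : Fin m, k ≤ (j : ℕ) ∧
      ∀ i i', (∀ l : Fin k, ω (Fin.castLE hk l) i = ω (Fin.castLE hk l) i') → ω j i = ω j i'} ⊆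
      ⋃ j : Fin m, {ω | k ≤ (j : ℕ) ∧ Nat.card {i // ∃ l : Fin k, ω (Fin.castLE hk l) i ∉ F} ≤ r ∧
      ∀ i i', (∀ l : Fin k, ω (Fin.castLE hk l) i = ω (Fin.castLE hk l) i') → ω j i = ω j i'} := by
    rintro ω ⟨h2, j, hj, h3⟩
    exact Set.mem_iUnion.2 ⟨j, hj, h2, h3⟩
  refine (measure_mono h1).trans ((measure_iUnion_le _).trans ?_)
  rw [tsum_fintype]
  have h2 : ∀ j : Fin m, law ν n m {ω | k ≤ (j : ℕ) ∧ Nat.card {i // ∃ l : Fin k, ω (Fin.castLE hk l) i ∉ F} ≤ r ∧
      ∀ i i', (∀ l : Fin k, ω (Fin.castLE hk l) i = ω (Fin.castLE hk l) i') → ω j i = ω j i'} ≤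
      c ^ (n - r - F.card ^ k) := by
    intro j
    unfold law
    apply coord_le _ _ j
    intro ω
    by_cases hj : k ≤ (j : ℕ)
    · have hup : ∀ (t : Fin n → B) (l : Fin k), Function.update ω j t (Fin.castLE hk l) = ω (Fin.castLE hk l) := by
        intro t l
        apply Function.update_of_ne
        intro h
        have := congrArg Fin.val h
        simp only [Fin.val_castLE] at this
        have := l.2
        omega
      by_cases hr : Nat.card {i // ∃ l : Fin k, ω (Fin.castLE hk l) i ∉ F} ≤ r
      · have h3 := block_le ν c hc hc1 (fun i (l : Fin k) => ω (Fin.castLE hk l) i)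
          (Fintype.piFinset (fun _ : Fin k => F)) r (by
            refine le_trans (le_of_eq ?_) hr
            rw [Nat.card_eq_fintype_card, Fintype.card_subtype]
            congr 1
            ext i
            simp only [Finset.mem_filter, Finset.mem_univ, true_and, Fintype.mem_piFinset, not_forall])
        rw [Fintype.card_piFinset_const] at h3
        refine le_trans (measure_mono ?_) h3
        rintro t ⟨_, _, ht⟩ i i' hii
        have h4 := ht i i' (fun l => by
          rw [hup]
          exact congrFun hii l)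
        rw [Function.update_self] at h4
        exact h4
      · apply empty_le
        rintro t ⟨_, h, _⟩
        simp only [hup] at h
        exact hr h
    · apply empty_le
      rintro t ⟨h, _⟩
      exact hj h
  refine (Finset.sum_le_sum (fun j _ => h2 j)).trans ?_
  simp

/-- the seeds contain all the columns `e v`, and no other row is constant on the blocks of the seeds -/
def Good {n m k : ℕ} (hk : k ≤ m) {s : ℕ} (e : Fin s → Fin k → B) (ω : Fin m → Fin n → B) : Prop :=
  (∀ v, ∃ i, ∀ l : Fin k, ω (Fin.castLE hk l) i = e v l) ∧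
  ∀ j : Fin m, k ≤ (j : ℕ) → ∃ i i', (∀ l : Fin k, ω (Fin.castLE hk l) i = ω (Fin.castLE hk l) i') ∧
    ω j i ≠ ω j i'

theorem good_bound (ν : Measure B) [IsProbabilityMeasure ν] (c : ℝ≥0∞) (hc : ∀ b, ν {b} ≤ c) (hc1 : c ≤ 1)
    (n : ℕ) {m k : ℕ} (hk : k ≤ m) (F : Finset B) (r : ℕ) {s : ℕ} (e : Fin s → Fin k → B) :
    law ν n m {ω | ¬ Good hk e ω} ≤ ∑ v, (1 - ∏ l, ν {e v l}) ^ n + 2 ^ n * (k * ν (F : Set B)ᶜ) ^ r +
      m * c ^ (n - r - F.card ^ k) := by
  classical
  have h1 : {ω : Fin m → Fin n → B | ¬ Good hk e ω} ⊆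
      ((⋃ v, {ω | ∀ i, ¬ ∀ l : Fin k, ω (Fin.castLE hk l) i = e v l}) ∪
      {ω | r ≤ Nat.card {i // ∃ l : Fin k, ω (Fin.castLE hk l) i ∉ (F : Set B)}}) ∪
      {ω | Nat.card {i // ∃ l : Fin k, ω (Fin.castLE hk l) i ∉ F} ≤ r ∧ ∃ j : Fin m, k ≤ (j : ℕ) ∧
      ∀ i i', (∀ l : Fin k, ω (Fin.castLE hk l) i = ω (Fin.castLE hk l) i') → ω j i = ω j i'} := by
    intro ω hω
    by_contra hcon
    simp only [Set.mem_union, Set.mem_iUnion, Set.mem_ofPred_eq, not_or, not_exists] at hcon
    obtain ⟨⟨h2, h3⟩, h4⟩ := hcon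
    apply hω
    constructor
    · intro v
      have := h2 v
      push Not at this
      exact this
    · intro j hj
      by_contra h5
      push Not at h5
      apply h4
      exact ⟨le_of_lt (not_le.1 h3), j, hj, h5⟩
  refine (measure_mono h1).trans ((measure_union_le _ _).trans (add_le_add ((measure_union_le _ _).trans
    (add_le_add ?_ (exceptional ν n hk F r))) (constant ν c hc hc1 n hk F r)))
  refine (measure_iUnion_le _).trans ?_
  rw [tsum_fintype]
  exact Finset.sum_le_sum (fun v _ => (missing ν n hk (e v)).le)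

end two

end Pool.Agent.L5helper59.BP
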