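import Pool.Agent.W994.AR.Final

/-!
# Templates generated by few tuples: pp-constructions of `K_3` from three or two rows
-/

set_option autoImplicit false

namespace Pool.Agent.L5helper59.BP

open Pool.Agent.W994.AR

variable {B : Type}

/-- The closure under the group `G` of the rows of the matrix with the columns `e v`. -/
def gen (G : Subgroup (Equiv.Perm B)) {V J : Type} (e : V → J → B) : Set (V → B) :=
  {x | ∃ j, Same G (fun v => e v j) x}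

theorem gen_invar (G : Subgroup (Equiv.Perm B)) {V J : Type} (e : V → J → B) : Invar G (gen G e) := by
  rintro g hg x ⟨j, h⟩
  exact ⟨j, h.trans ⟨g, hg, fun _ => rfl⟩⟩

/-- projections -/
theorem pp_cols {ι : Type} {ar : ι → ℕ} {𝔸 : Str ι ar B} (i : ι) {V : Type} [Finite V]
    (c : V → Fin (ar i)) : PP 𝔸 {x : V → B | ∃ y ∈ 𝔸 i, y ∘ c = x} := by
  have h1 : PP 𝔸 {z : V ⊕ Fin (ar i) → B | z ∘ (Sum.inr : Fin (ar i) → V ⊕ Fin (ar i)) ∈ 𝔸 i} :=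
    PP.rel i _
  have h2 : PP 𝔸 {z : V ⊕ Fin (ar i) → B | ∀ v ∈ (Set.univ : Set V), z ∈
      {z : V ⊕ Fin (ar i) → B | z (Sum.inl v) = z (Sum.inr (c v))}} :=
    PP.iInter _ Set.finite_univ _ (fun v _ => PP.eq _ _)
  convert (h1.inter h2).ex using 1
  ext x
  constructor
  · rintro ⟨y, hy, rfl⟩
    exact ⟨y, hy, fun v _ => rfl⟩
  · rintro ⟨y, hy, hv⟩
    exact ⟨y, hy, funext fun v => (hv v trivial).symm⟩

/-- the projection to chosen columns -/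
theorem cols_gen (G : Subgroup (Equiv.Perm B)) {V U J J' : Type} (ω : U → J → B) (e : V → J' → B)
    (c : V → U) (μ : J → J') (hμ : Function.Surjective μ) (h : ∀ v j, ω (c v) j = e v (μ j)) :
    {x : V → B | ∃ y ∈ gen G ω, y ∘ c = x} = gen G e := by
  ext x
  constructor
  · rintro ⟨y, ⟨j, g, hg, hy⟩, rfl⟩
    refine ⟨μ j, g, hg, fun v => ?_⟩
    show g (e v (μ j)) = y (c v)
    rw [← h v j]
    exact hy (c v)
  · rintro ⟨j', g, hg, hx⟩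
    obtain ⟨j, rfl⟩ := hμ j'
    refine ⟨fun u => g (ω u j), ⟨j, g, hg, fun _ => rfl⟩, funext fun v => ?_⟩
    rw [← hx v]
    show g (ω (c v) j) = g (e v (μ j))
    rw [h v j]

theorem pp_gen {ι : Type} {ar : ι → ℕ} {𝔸 : Str ι ar B} (G : Subgroup (Equiv.Perm B)) (i : ι)
    {V J J' : Type} [Finite V] (ω : Fin (ar i) → J → B) (hω : 𝔸 i = gen G ω) (e : V → J' → B)
    (c : V → Fin (ar i)) (μ : J → J') (hμ : Function.Surjective μ)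
    (h : ∀ v j, ω (c v) j = e v (μ j)) : PP 𝔸 (gen G e) := by
  rw [← cols_gen G ω e c μ hμ h, ← hω]
  exact pp_cols i c

/-- the orbital of `(p, q)` -/
def Ob (G : Subgroup (Equiv.Perm B)) (p q a b : B) : Prop := ∃ g ∈ G, g p = a ∧ g q = b

theorem Ob.ne {G : Subgroup (Equiv.Perm B)} {p q a b : B} (h : Ob G p q a b) (hpq : p ≠ q) : a ≠ b := by
  obtain ⟨g, _, rfl, rfl⟩ := h
  exact fun h => hpq (g.injective h)

/-! ## three rows -/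

/-- the columns -/
def e3 (p q : B) : Fin 5 → Fin 3 → B :=
  ![![p, p, p], ![q, p, p], ![p, q, p], ![p, p, q], ![q, q, q]]

/-- the rows -/
def row3 (j : Fin 3) (a b : B) : Fin 5 → B := fun v => e3 a b v j

theorem mem_gen3 {G : Subgroup (Equiv.Perm B)} {p q : B} {x : Fin 5 → B} :
    x ∈ gen G (e3 p q) ↔ ∃ j a b, Ob G p q a b ∧ x = row3 j a b := by
  constructor
  · rintro ⟨j, g, hg, h⟩
    refine ⟨j, g p, g q, ⟨g, hg, rfl, rfl⟩, funext fun v => ?_⟩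
    rw [← h v]
    fin_cases v <;> fin_cases j <;> rfl
  · rintro ⟨j, a, b, ⟨g, hg, rfl, rfl⟩, rfl⟩
    refine ⟨j, g, hg, fun v => ?_⟩
    fin_cases v <;> fin_cases j <;> rfl

/-- the variables of the condition `j` -/
def s3 (j : Fin 3) : Fin 5 → (Fin 5 ⊕ Fin 5) ⊕ Fin 1 :=
  ![Sum.inl (Sum.inl 0), Sum.inl (Sum.inl (Fin.castSucc j.succ)), Sum.inl (Sum.inr (Fin.castSucc j.succ)),
    Sum.inr 0, Sum.inl (Sum.inl 4)]

/-- the edges -/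
def E3 (G : Subgroup (Equiv.Perm B)) (p q : B) : Set (Fin 5 ⊕ Fin 5 → B) :=
  (({z | z ∘ Sum.inl ∈ gen G (e3 p q)} ∩ {z | z ∘ Sum.inr ∈ gen G (e3 p q)}) ∩
    ({z | z (Sum.inl 0) = z (Sum.inr 0)} ∩ {z | z (Sum.inl 4) = z (Sum.inr 4)})) ∩
  {z | ∀ j ∈ (Set.univ : Set (Fin 3)), z ∈ {z : Fin 5 ⊕ Fin 5 → B | ∃ u : Fin 1 → B,
    Sum.elim z u ∈ {y | y ∘ s3 j ∈ gen G (e3 p q)}}}

theorem pp_E3 {ι : Type} {ar : ι → ℕ} {𝔸 : Str ι ar B} {G : Subgroup (Equiv.Perm B)} {p q : B}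
    (h : PP 𝔸 (gen G (e3 p q))) : PP 𝔸 (E3 G p q) := by
  refine (((h.subst _).inter (h.subst _)).inter ((PP.eq _ _).inter (PP.eq _ _))).inter ?_
  exact PP.iInter _ Set.finite_univ _ (fun j _ => (h.subst (s3 j)).ex)

theorem k3_of_three {ι : Type} {ar : ι → ℕ} {𝔸 : Str ι ar B} {G : Subgroup (Equiv.Perm B)} {p q : B}
    (hpq : p ≠ q) (h : PP 𝔸 (gen G (e3 p q))) : PPConstructsK3 𝔸 := by
  classical
  have hO : Ob G p q p q := ⟨1, G.one_mem, rfl, rfl⟩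
  refine ⟨5, E3 G p q, by norm_num, (pp_E3 h).toPPDef, ⟨fun j => row3 j p q, fun i j hij => ?_⟩,
    ⟨fun x => if x 1 ≠ x 0 then 0 else if x 2 ≠ x 0 then 1 else 2, fun x y hxy heq => ?_⟩⟩
  · refine ⟨⟨⟨mem_gen3.2 ⟨i, p, q, hO, rfl⟩, mem_gen3.2 ⟨j, p, q, hO, rfl⟩⟩, ?_, ?_⟩, fun l _ => ?_⟩
    · fin_cases i <;> fin_cases j <;> rfl
    · fin_cases i <;> fin_cases j <;> rfl
    · have key : ∀ (i j l : Fin 3), i ≠ j → ∃ (w : B) (t : Fin 3),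
          ![p, row3 i p q (Fin.castSucc l.succ), row3 j p q (Fin.castSucc l.succ), w, q] = row3 t p q := by
        intro i j l hij
        fin_cases i <;> fin_cases j <;> fin_cases l <;>
          first
          | exact absurd rfl hij
          | (refine ⟨p, 0, ?_⟩; funext v; fin_cases v <;> rfl)
          | (refine ⟨p, 1, ?_⟩; funext v; fin_cases v <;> rfl)
          | (refine ⟨q, 2, ?_⟩; funext v; fin_cases v <;> rfl)
      obtain ⟨w, t, hw⟩ := key i j l hij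
      refine ⟨fun _ => w, mem_gen3.2 ⟨t, p, q, hO, ?_⟩⟩
      rw [← hw]
      funext v
      fin_cases v
      · show row3 i p q 0 = p
        fin_cases i <;> rfl
      · rfl
      · rfl
      · rfl
      · show row3 i p q 4 = q
        fin_cases i <;> rfl
  · obtain ⟨⟨⟨hx, hy⟩, h0, h4⟩, hT⟩ := hxy
    obtain ⟨i, a, b, hab, hx⟩ := mem_gen3.1 hx
    obtain ⟨j, a', b', hab', hy⟩ := mem_gen3.1 hy
    have hx' : x = row3 i a b := hx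
    have hy' : y = row3 j a' b' := hy
    subst hx'
    subst hy'
    have ha : a = a' := by
      have h0' : row3 i a b 0 = row3 j a' b' 0 := h0
      fin_cases i <;> fin_cases j <;> exact h0'
    have hb : b = b' := by
      have h4' : row3 i a b 4 = row3 j a' b' 4 := h4
      fin_cases i <;> fin_cases j <;> exact h4'
    subst ha
    subst hb
    have hne : a ≠ b := hab.ne hpq
    have hg : ∀ t : Fin 3, (if row3 t a b 1 ≠ row3 t a b 0 then (0 : Fin 3) else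
        if row3 t a b 2 ≠ row3 t a b 0 then 1 else 2) = t := by
      intro t
      fin_cases t
      · have : row3 0 a b 1 ≠ row3 0 a b 0 := hne.symm
        simp only [Fin.zero_eta, Fin.isValue, if_pos this]
      · have h1 : ¬ row3 1 a b 1 ≠ row3 1 a b 0 := fun h => h rfl
        have h2 : row3 1 a b 2 ≠ row3 1 a b 0 := hne.symm
        simp only [Fin.mk_one, Fin.isValue, if_neg h1, if_pos h2]
      · have h1 : ¬ row3 2 a b 1 ≠ row3 2 a b 0 := fun h => h rfl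
        have h2 : ¬ row3 2 a b 2 ≠ row3 2 a b 0 := fun h => h rfl
        simp only [Fin.reduceFinMk, Fin.isValue, if_neg h1, if_neg h2]
    simp only [hg] at heq
    subst heq
    obtain ⟨u, hu⟩ := hT i trivial
    obtain ⟨t, c, d, hcd, hu⟩ := mem_gen3.1 hu
    have hcd' := hcd.ne hpq
    have e0 : row3 i a b 0 = row3 t c d 0 := congrFun hu 0
    have e1 : row3 i a b (Fin.castSucc i.succ) = row3 t c d 1 := congrFun hu 1
    have e2 : row3 i a b (Fin.castSucc i.succ) = row3 t c d 2 := congrFun hu 2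
    have e4 : row3 i a b 4 = row3 t c d 4 := congrFun hu 4
    have hrow : row3 i a b (Fin.castSucc i.succ) = b := by fin_cases i <;> rfl
    have hrow0 : row3 i a b 0 = a := by fin_cases i <;> rfl
    rw [hrow] at e1 e2
    rw [hrow0] at e0
    fin_cases t
    · exact hne (e0.trans e2.symm)
    · exact hne (e0.trans e1.symm)
    · exact hne (e0.trans e1.symm)

/-! ## two rows -/

/-- the columns -/
def e2 (p q r : B) : Fin 5 → Fin 2 → B :=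
  ![![p, p], ![q, q], ![r, r], ![p, q], ![q, p]]

section two
variable {G : Subgroup (Equiv.Perm B)} {p q r : B}

/-- the orbit of `(p, q, r)` -/
def Ob3 (G : Subgroup (Equiv.Perm B)) (p q r a b c : B) : Prop := ∃ g ∈ G, g p = a ∧ g q = b ∧ g r = c

theorem mem_gen2 {x : Fin 5 → B} :
    x ∈ gen G (e2 p q r) ↔ Ob3 G p q r (x 0) (x 1) (x 2) ∧
      ((x 3 = x 0 ∧ x 4 = x 1) ∨ (x 3 = x 1 ∧ x 4 = x 0)) := by
  constructor
  · rintro ⟨j, g, hg, h⟩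
    have h0 := h 0
    have h1 := h 1
    have h2 := h 2
    have h3 := h 3
    have h4 := h 4
    fin_cases j
    · exact ⟨⟨g, hg, h0, h1, h2⟩, Or.inl ⟨h3.symm.trans h0, h4.symm.trans h1⟩⟩
    · exact ⟨⟨g, hg, h0, h1, h2⟩, Or.inr ⟨h3.symm.trans h1, h4.symm.trans h0⟩⟩
  · rintro ⟨⟨g, hg, h0, h1, h2⟩, ⟨h3, h4⟩ | ⟨h3, h4⟩⟩
    · refine ⟨0, g, hg, fun v => ?_⟩
      fin_cases v
      · exact h0
      · exact h1
      · exact h2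
      · exact h0.trans h3.symm
      · exact h1.trans h4.symm
    · refine ⟨1, g, hg, fun v => ?_⟩
      fin_cases v
      · exact h0
      · exact h1
      · exact h2
      · exact h1.trans h3.symm
      · exact h0.trans h4.symm

/-- `(a, u, v, b)`: `(u, v)` is `(a, b)` or `(b, a)` -/
def W (G : Subgroup (Equiv.Perm B)) (p q r : B) : Set (Fin 4 → B) :=
  {x | ∃ w : Fin 1 → B, Sum.elim x w ∈ {z : Fin 4 ⊕ Fin 1 → B |
    z ∘ ![Sum.inl 0, Sum.inl 3, Sum.inr 0, Sum.inl 1, Sum.inl 2] ∈ gen G (e2 p q r)}}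

theorem mem_W {x : Fin 4 → B} : x ∈ W G p q r ↔ Ob G p q (x 0) (x 3) ∧
    ((x 1 = x 0 ∧ x 2 = x 3) ∨ (x 1 = x 3 ∧ x 2 = x 0)) := by
  constructor
  · rintro ⟨w, hw⟩
    obtain ⟨⟨g, hg, h0, h1, h2⟩, h⟩ := mem_gen2.1 hw
    exact ⟨⟨g, hg, h0, h1⟩, h⟩
  · rintro ⟨⟨g, hg, h0, h1⟩, h⟩
    exact ⟨fun _ => g r, mem_gen2.2 ⟨⟨g, hg, h0, h1, rfl⟩, h⟩⟩

/-- `(a, b, c, d)`: `b = c` or `b = d` -/
def T3 (G : Subgroup (Equiv.Perm B)) (p q r : B) : Set (Fin 4 → B) :=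
  {x | ∃ w : Fin 4 → B, Sum.elim x w ∈
    (({z : Fin 4 ⊕ Fin 4 → B | z ∘ ![Sum.inl 0, Sum.inr 0, Sum.inr 1, Sum.inl 1] ∈ W G p q r} ∩
    {z : Fin 4 ⊕ Fin 4 → B | z ∘ ![Sum.inl 0, Sum.inr 0, Sum.inr 2, Sum.inl 2] ∈ W G p q r}) ∩
    {z : Fin 4 ⊕ Fin 4 → B | z ∘ ![Sum.inl 0, Sum.inr 1, Sum.inr 3, Sum.inl 3] ∈ W G p q r})}

theorem mem_T3 (hpq : p ≠ q) {x : Fin 4 → B} : x ∈ T3 G p q r ↔ (Ob G p q (x 0) (x 1) ∧ Ob G p q (x 0) (x 2) ∧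
    Ob G p q (x 0) (x 3)) ∧ (x 1 = x 2 ∨ x 1 = x 3) := by
  constructor
  · rintro ⟨w, ⟨h1, h2⟩, h3⟩
    obtain ⟨o1, h1⟩ := mem_W.1 h1
    obtain ⟨o2, h2⟩ := mem_W.1 h2
    obtain ⟨o3, h3⟩ := mem_W.1 h3
    replace o1 : Ob G p q (x 0) (x 1) := o1
    replace o2 : Ob G p q (x 0) (x 2) := o2
    replace o3 : Ob G p q (x 0) (x 3) := o3
    replace h1 : (w 0 = x 0 ∧ w 1 = x 1) ∨ (w 0 = x 1 ∧ w 1 = x 0) := h1
    replace h2 : (w 0 = x 0 ∧ w 2 = x 2) ∨ (w 0 = x 2 ∧ w 2 = x 0) := h2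
    replace h3 : (w 1 = x 0 ∧ w 3 = x 3) ∨ (w 1 = x 3 ∧ w 3 = x 0) := h3
    refine ⟨⟨o1, o2, o3⟩, ?_⟩
    rcases h1 with ⟨ha, hb⟩ | ⟨ha, hb⟩
    · rcases h3 with ⟨hc, _⟩ | ⟨hc, _⟩
      · exact absurd (hc.symm.trans hb) (o1.ne hpq)
      · exact Or.inr (hb.symm.trans hc)
    · rcases h2 with ⟨hc, _⟩ | ⟨hc, _⟩
      · exact absurd (hc.symm.trans ha) (o1.ne hpq)
      · exact Or.inl (ha.symm.trans hc)
  · rintro ⟨⟨o1, o2, o3⟩, h | h⟩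
    · refine ⟨![x 1, x 0, x 0, x 3], ⟨mem_W.2 ⟨o1, Or.inr ⟨rfl, rfl⟩⟩, mem_W.2 ⟨o2, Or.inr ⟨h, rfl⟩⟩⟩,
        mem_W.2 ⟨o3, Or.inl ⟨rfl, rfl⟩⟩⟩
    · refine ⟨![x 0, x 1, x 2, x 0], ⟨mem_W.2 ⟨o1, Or.inl ⟨rfl, rfl⟩⟩, mem_W.2 ⟨o2, Or.inl ⟨rfl, rfl⟩⟩⟩,
        mem_W.2 ⟨o3, Or.inr ⟨h, rfl⟩⟩⟩

/-- `(a, x, y, s, t)`: `x = y` or `s = t` -/
def D4 (G : Subgroup (Equiv.Perm B)) (p q r : B) : Set (Fin 5 → B) :=
  {x | ∃ w : Fin 2 → B, Sum.elim x w ∈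
    (({z : Fin 5 ⊕ Fin 2 → B | z ∘ ![Sum.inl 0, Sum.inr 0, Sum.inl 1, Sum.inl 3] ∈ T3 G p q r} ∩
    {z : Fin 5 ⊕ Fin 2 → B | z ∘ ![Sum.inl 0, Sum.inr 0, Sum.inl 2, Sum.inl 4] ∈ T3 G p q r}) ∩
    ({z : Fin 5 ⊕ Fin 2 → B | z ∘ ![Sum.inl 0, Sum.inr 1, Sum.inl 1, Sum.inl 4] ∈ T3 G p q r} ∩
    {z : Fin 5 ⊕ Fin 2 → B | z ∘ ![Sum.inl 0, Sum.inr 1, Sum.inl 2, Sum.inl 3] ∈ T3 G p q r}))}

theorem mem_D4 (hpq : p ≠ q) {x : Fin 5 → B} : x ∈ D4 G p q r ↔ (Ob G p q (x 0) (x 1) ∧ Ob G p q (x 0) (x 2) ∧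
    Ob G p q (x 0) (x 3) ∧ Ob G p q (x 0) (x 4)) ∧ (x 1 = x 2 ∨ x 3 = x 4) := by
  constructor
  · rintro ⟨w, ⟨h1, h2⟩, h3, h4⟩
    obtain ⟨⟨_, o1, o3⟩, h1⟩ := (mem_T3 hpq).1 h1
    obtain ⟨⟨_, o2, o4⟩, h2⟩ := (mem_T3 hpq).1 h2
    obtain ⟨_, h3⟩ := (mem_T3 hpq).1 h3
    obtain ⟨_, h4⟩ := (mem_T3 hpq).1 h4
    replace o1 : Ob G p q (x 0) (x 1) := o1
    replace o2 : Ob G p q (x 0) (x 2) := o2
    replace o3 : Ob G p q (x 0) (x 3) := o3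
    replace o4 : Ob G p q (x 0) (x 4) := o4
    replace h1 : w 0 = x 1 ∨ w 0 = x 3 := h1
    replace h2 : w 0 = x 2 ∨ w 0 = x 4 := h2
    replace h3 : w 1 = x 1 ∨ w 1 = x 4 := h3
    replace h4 : w 1 = x 2 ∨ w 1 = x 3 := h4
    refine ⟨⟨o1, o2, o3, o4⟩, ?_⟩
    rcases h1 with h1 | h1 <;> rcases h2 with h2 | h2
    · exact Or.inl (h1.symm.trans h2)
    · rcases h3 with h3 | h3 <;> rcases h4 with h4 | h4
      · exact Or.inl (h3.symm.trans h4)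
      · exact Or.inr ((h4.symm.trans h3).trans (h1.symm.trans h2))
      · exact Or.inl ((h1.symm.trans h2).trans (h3.symm.trans h4))
      · exact Or.inr (h4.symm.trans h3)
    · rcases h3 with h3 | h3 <;> rcases h4 with h4 | h4
      · exact Or.inl (h3.symm.trans h4)
      · exact Or.inl ((h3.symm.trans h4).trans (h1.symm.trans h2))
      · exact Or.inr ((h1.symm.trans h2).trans (h4.symm.trans h3))
      · exact Or.inr (h4.symm.trans h3)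
    · exact Or.inr (h1.symm.trans h2)
  · rintro ⟨⟨o1, o2, o3, o4⟩, h | h⟩
    · refine ⟨![x 1, x 1], ⟨(mem_T3 hpq).2 ⟨⟨o1, o1, o3⟩, Or.inl rfl⟩, (mem_T3 hpq).2 ⟨⟨o1, o2, o4⟩, Or.inl h⟩⟩,
        (mem_T3 hpq).2 ⟨⟨o1, o1, o4⟩, Or.inl rfl⟩, (mem_T3 hpq).2 ⟨⟨o1, o2, o3⟩, Or.inl h⟩⟩
    · refine ⟨![x 3, x 3], ⟨(mem_T3 hpq).2 ⟨⟨o3, o1, o3⟩, Or.inr rfl⟩, (mem_T3 hpq).2 ⟨⟨o3, o2, o4⟩, Or.inr h⟩⟩,
        (mem_T3 hpq).2 ⟨⟨o3, o1, o4⟩, Or.inr h⟩, (mem_T3 hpq).2 ⟨⟨o3, o2, o3⟩, Or.inr rfl⟩⟩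

/-- `(a, c, x, y, z)`: one of `x, y, z` is `c` -/
def C3 (G : Subgroup (Equiv.Perm B)) (p q r : B) : Set (Fin 5 → B) :=
  {x | ∃ w : Fin 1 → B, Sum.elim x w ∈
    ({z : Fin 5 ⊕ Fin 1 → B | z ∘ ![Sum.inl 0, Sum.inl 2, Sum.inl 1, Sum.inr 0, Sum.inl 1] ∈ D4 G p q r} ∩
    {z : Fin 5 ⊕ Fin 1 → B | z ∘ ![Sum.inl 0, Sum.inr 0, Sum.inl 3, Sum.inl 4, Sum.inl 1] ∈ D4 G p q r})}

theorem mem_C3 (hpq : p ≠ q) {x : Fin 5 → B} : x ∈ C3 G p q r ↔ (Ob G p q (x 0) (x 1) ∧ Ob G p q (x 0) (x 2) ∧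
    Ob G p q (x 0) (x 3) ∧ Ob G p q (x 0) (x 4)) ∧ (x 2 = x 1 ∨ x 3 = x 1 ∨ x 4 = x 1) := by
  classical
  constructor
  · rintro ⟨w, h1, h2⟩
    obtain ⟨⟨o2, o1, _, _⟩, h1⟩ := (mem_D4 hpq).1 h1
    obtain ⟨⟨_, o3, o4, _⟩, h2⟩ := (mem_D4 hpq).1 h2
    replace o1 : Ob G p q (x 0) (x 1) := o1
    replace o2 : Ob G p q (x 0) (x 2) := o2
    replace o3 : Ob G p q (x 0) (x 3) := o3
    replace o4 : Ob G p q (x 0) (x 4) := o4
    replace h1 : x 2 = x 1 ∨ w 0 = x 1 := h1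
    replace h2 : w 0 = x 3 ∨ x 4 = x 1 := h2
    refine ⟨⟨o1, o2, o3, o4⟩, ?_⟩
    rcases h1 with h1 | h1
    · exact Or.inl h1
    · rcases h2 with h2 | h2
      · exact Or.inr (Or.inl (h2.symm.trans h1))
      · exact Or.inr (Or.inr h2)
  · rintro ⟨⟨o1, o2, o3, o4⟩, h | h | h⟩
    · exact ⟨fun _ => x 3, (mem_D4 hpq).2 ⟨⟨o2, o1, o3, o1⟩, Or.inl h⟩,
        (mem_D4 hpq).2 ⟨⟨o3, o3, o4, o1⟩, Or.inl rfl⟩⟩
    · exact ⟨fun _ => x 3, (mem_D4 hpq).2 ⟨⟨o2, o1, o3, o1⟩, Or.inr h⟩,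
        (mem_D4 hpq).2 ⟨⟨o3, o3, o4, o1⟩, Or.inl rfl⟩⟩
    · exact ⟨fun _ => x 1, (mem_D4 hpq).2 ⟨⟨o2, o1, o1, o1⟩, Or.inr rfl⟩,
        (mem_D4 hpq).2 ⟨⟨o1, o3, o4, o1⟩, Or.inr h⟩⟩

/-- the orbit of `(p, q, r)` -/
def P3 (G : Subgroup (Equiv.Perm B)) (p q r : B) : Set (Fin 3 → B) :=
  {x | ∃ w : Fin 2 → B, Sum.elim x w ∈ {z : Fin 3 ⊕ Fin 2 → B |
    z ∘ ![Sum.inl 0, Sum.inl 1, Sum.inl 2, Sum.inr 0, Sum.inr 1] ∈ gen G (e2 p q r)}}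

theorem mem_P3 {x : Fin 3 → B} : x ∈ P3 G p q r ↔ Ob3 G p q r (x 0) (x 1) (x 2) := by
  constructor
  · rintro ⟨w, hw⟩
    exact (mem_gen2.1 hw).1
  · intro h
    exact ⟨![x 0, x 1], mem_gen2.2 ⟨h, Or.inl ⟨rfl, rfl⟩⟩⟩

/-- the edges -/
def E2 (G : Subgroup (Equiv.Perm B)) (p q r : B) : Set (Fin 6 ⊕ Fin 6 → B) :=
  ((({z | z (Sum.inl 0) = z (Sum.inr 0)} ∩ {z | z (Sum.inl 1) = z (Sum.inr 1)}) ∩
    ({z | z (Sum.inl 2) = z (Sum.inr 2)} ∩ {z | z ∘ ![Sum.inl 0, Sum.inl 1, Sum.inl 2] ∈ P3 G p q r})) ∩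
    ({z | z ∘ ![Sum.inl 0, Sum.inl 2, Sum.inl 3, Sum.inl 4, Sum.inl 5] ∈ C3 G p q r} ∩
    {z | z ∘ ![Sum.inr 0, Sum.inr 2, Sum.inr 3, Sum.inr 4, Sum.inr 5] ∈ C3 G p q r})) ∩
  (({z | z ∘ ![Sum.inl 0, Sum.inl 3, Sum.inl 1, Sum.inr 3, Sum.inl 1] ∈ D4 G p q r} ∩
    {z | z ∘ ![Sum.inl 0, Sum.inl 4, Sum.inl 1, Sum.inr 4, Sum.inl 1] ∈ D4 G p q r}) ∩
    {z | z ∘ ![Sum.inl 0, Sum.inl 5, Sum.inl 1, Sum.inr 5, Sum.inl 1] ∈ D4 G p q r})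

theorem pp_E2 {ι : Type} {ar : ι → ℕ} {𝔸 : Str ι ar B} (h : PP 𝔸 (gen G (e2 p q r))) :
    PP 𝔸 (E2 G p q r) := by
  have hW : PP 𝔸 (W G p q r) := (h.subst _).ex
  have hT : PP 𝔸 (T3 G p q r) := (((hW.subst _).inter (hW.subst _)).inter (hW.subst _)).ex
  have hD : PP 𝔸 (D4 G p q r) :=
    (((hT.subst _).inter (hT.subst _)).inter ((hT.subst _).inter (hT.subst _))).ex
  have hC : PP 𝔸 (C3 G p q r) := ((hD.subst _).inter (hD.subst _)).ex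
  have hP : PP 𝔸 (P3 G p q r) := (h.subst _).ex
  exact ((((PP.eq _ _).inter (PP.eq _ _)).inter ((PP.eq _ _).inter (hP.subst _))).inter
    ((hC.subst _).inter (hC.subst _))).inter (((hD.subst _).inter (hD.subst _)).inter (hD.subst _))

theorem k3_of_two {ι : Type} {ar : ι → ℕ} {𝔸 : Str ι ar B} (hpq : p ≠ q) (hqr : q ≠ r)
    {g₀ : Equiv.Perm B} (hg₀ : g₀ ∈ G) (hp : g₀ p = p) (hq : g₀ q = r)
    (h : PP 𝔸 (gen G (e2 p q r))) : PPConstructsK3 𝔸 := by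
  classical
  have oq : Ob G p q p q := ⟨1, G.one_mem, rfl, rfl⟩
  have or : Ob G p q p r := ⟨g₀, hg₀, hp, hq⟩
  have o3 : Ob3 G p q r p q r := ⟨1, G.one_mem, rfl, rfl, rfl⟩
  let F : Fin 3 → Fin 6 → B := fun j => ![p, q, r, if j = 0 then r else q, if j = 1 then r else q,
    if j = 2 then r else q]
  have hob : ∀ (c : Prop) [Decidable c], Ob G p q p (if c then r else q) := by
    intro c _
    split_ifs
    · exact or
    · exact oq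
  have hC : ∀ j : Fin 3, Ob G p q p (F j 3) ∧ Ob G p q p (F j 4) ∧ Ob G p q p (F j 5) ∧
      (F j 3 = r ∨ F j 4 = r ∨ F j 5 = r) := by
    intro j
    refine ⟨hob _, hob _, hob _, ?_⟩
    fin_cases j
    · exact Or.inl rfl
    · exact Or.inr (Or.inl rfl)
    · exact Or.inr (Or.inr rfl)
  have hD : ∀ i j : Fin 3, i ≠ j → (F i 3 = q ∨ F j 3 = q) ∧ (F i 4 = q ∨ F j 4 = q) ∧
      (F i 5 = q ∨ F j 5 = q) := by
    intro i j hij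
    fin_cases i <;> fin_cases j <;>
      first
      | exact absurd rfl hij
      | exact ⟨Or.inl rfl, Or.inl rfl, Or.inl rfl⟩
      | exact ⟨Or.inl rfl, Or.inl rfl, Or.inr rfl⟩
      | exact ⟨Or.inl rfl, Or.inr rfl, Or.inl rfl⟩
      | exact ⟨Or.inr rfl, Or.inl rfl, Or.inl rfl⟩
  refine ⟨6, E2 G p q r, by norm_num, (pp_E2 h).toPPDef, ⟨F, fun i j hij => ?_⟩,
    ⟨fun x => if x 3 = x 2 then 0 else if x 4 = x 2 then 1 else 2, fun x y hxy heq => ?_⟩⟩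
  · obtain ⟨c1, c2, c3, c4⟩ := hC i
    obtain ⟨d1, d2, d3, d4⟩ := hC j
    obtain ⟨f1, f2, f3⟩ := hD i j hij
    refine ⟨⟨⟨⟨rfl, rfl⟩, rfl, mem_P3.2 o3⟩, (mem_C3 hpq).2 ⟨⟨or, c1, c2, c3⟩, c4⟩,
      (mem_C3 hpq).2 ⟨⟨or, d1, d2, d3⟩, d4⟩⟩, ⟨(mem_D4 hpq).2 ⟨⟨c1, oq, d1, oq⟩, f1⟩,
      (mem_D4 hpq).2 ⟨⟨c2, oq, d2, oq⟩, f2⟩⟩, (mem_D4 hpq).2 ⟨⟨c3, oq, d3, oq⟩, f3⟩⟩
  · obtain ⟨⟨⟨⟨_, h1⟩, h2, hP⟩, hCx, hCy⟩, ⟨hD0, hD1⟩, hD2⟩ := hxy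
    obtain ⟨_, hCx⟩ := (mem_C3 hpq).1 hCx
    obtain ⟨_, hCy⟩ := (mem_C3 hpq).1 hCy
    obtain ⟨_, hD0⟩ := (mem_D4 hpq).1 hD0
    obtain ⟨_, hD1⟩ := (mem_D4 hpq).1 hD1
    obtain ⟨_, hD2⟩ := (mem_D4 hpq).1 hD2
    obtain ⟨g, hg, _, hgq, hgr⟩ := mem_P3.1 hP
    replace h1 : x 1 = y 1 := h1
    replace h2 : x 2 = y 2 := h2
    replace hgq : g q = x 1 := hgq
    replace hgr : g r = x 2 := hgr
    have hne : x 2 ≠ x 1 := by
      rw [← hgq, ← hgr]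
      exact fun h => hqr (g.injective h).symm
    replace hCx : x 3 = x 2 ∨ x 4 = x 2 ∨ x 5 = x 2 := hCx
    replace hCy : y 3 = y 2 ∨ y 4 = y 2 ∨ y 5 = y 2 := hCy
    replace hD0 : x 3 = x 1 ∨ y 3 = x 1 := hD0
    replace hD1 : x 4 = x 1 ∨ y 4 = x 1 := hD1
    replace hD2 : x 5 = x 1 ∨ y 5 = x 1 := hD2
    rw [← h2] at hCy
    have k0 : ¬ (x 3 = x 2 ∧ y 3 = x 2) := by
      rintro ⟨ha, hb⟩
      rcases hD0 with h | h
      · exact hne (ha.symm.trans h)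
      · exact hne (hb.symm.trans h)
    have k1 : ¬ (x 4 = x 2 ∧ y 4 = x 2) := by
      rintro ⟨ha, hb⟩
      rcases hD1 with h | h
      · exact hne (ha.symm.trans h)
      · exact hne (hb.symm.trans h)
    have k2 : ¬ (x 5 = x 2 ∧ y 5 = x 2) := by
      rintro ⟨ha, hb⟩
      rcases hD2 with h | h
      · exact hne (ha.symm.trans h)
      · exact hne (hb.symm.trans h)
    simp only [← h2] at heq
    by_cases x3 : x 3 = x 2 <;> by_cases y3 : y 3 = x 2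
    · exact k0 ⟨x3, y3⟩
    · rw [if_pos x3, if_neg y3] at heq
      by_cases y4 : y 4 = x 2
      · rw [if_pos y4] at heq
        exact absurd heq (by decide)
      · rw [if_neg y4] at heq
        exact absurd heq (by decide)
    · rw [if_neg x3, if_pos y3] at heq
      by_cases x4 : x 4 = x 2
      · rw [if_pos x4] at heq
        exact absurd heq (by decide)
      · rw [if_neg x4] at heq
        exact absurd heq (by decide)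
    · rw [if_neg x3, if_neg y3] at heq
      by_cases x4 : x 4 = x 2 <;> by_cases y4 : y 4 = x 2
      · exact k1 ⟨x4, y4⟩
      · rw [if_pos x4, if_neg y4] at heq
        exact absurd heq (by decide)
      · rw [if_neg x4, if_pos y4] at heq
        exact absurd heq (by decide)
      · refine k2 ⟨?_, ?_⟩
        · rcases hCx with h | h | h
          · exact absurd h x3
          · exact absurd h x4
          · exact h
        · rcases hCy with h | h | h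
          · exact absurd h y3
          · exact absurd h y4
          · exact h

end two

end Pool.Agent.L5helper59.BP
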