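import Pool.Agent.L5helper59.BP.Rows

/-!
# Templates generated by few tuples which do not pp-construct `K_3`
-/

set_option autoImplicit false

namespace Pool.Agent.L5helper59.BP

open Pool.Agent.W994.AR

variable {B : Type}

theorem toPP {ι : Type} {ar : ι → ℕ} {𝔸 : Str ι ar B} {V : Type} {S : Set (V → B)} (h : PPDef 𝔸 S) :
    PP 𝔸 S := by
  obtain ⟨q, Φ, h⟩ := h
  exact ⟨Fin q, inferInstance, {φ | φ ∈ Φ}, Φ.finite_toSet, h⟩

/-- the template with one relation -/
abbrev single {n : ℕ} (R : Set (Fin n → B)) : Str (Fin 1) (fun _ => n) B := fun _ => R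

theorem fin3_aux : ∀ d a b c : Fin 3, ¬ (d ≠ a ∧ d ≠ b ∧ d ≠ c ∧ a ≠ b ∧ a ≠ c ∧ b ≠ c) := by decide

theorem not_k3_of_majority {ι : Type} {ar : ι → ℕ} {𝔸 : Str ι ar B} (F : (Fin 3 → B) → B)
    (hF : IsPol 𝔸 F) (h1 : ∀ x y, F ![x, x, y] = x) (h2 : ∀ x y, F ![x, y, x] = x)
    (h3 : ∀ x y, F ![y, x, x] = x) : ¬ PPConstructsK3 𝔸 := by
  rintro ⟨n, E, _, hE, ⟨f, hf⟩, ⟨g, hg⟩⟩
  have hE' := toPP hE
  let M : (Fin 3 → Fin 3) → Fin n → B := fun c i => F (fun a => f (c a) i)
  have edge : ∀ c c' : Fin 3 → Fin 3, (∀ a, c a ≠ c' a) → g (M c) ≠ g (M c') := by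
    intro c c' h
    apply hg
    have h4 := hF.preserves hE' (fun a => Sum.elim (f (c a)) (f (c' a))) (fun a => hf _ _ (h a))
    convert h4 using 1
    funext x
    cases x <;> rfl
  have m1 : ∀ x y, M ![x, x, y] = f x := by
    intro x y
    funext i
    rw [← h1 (f x i) (f y i)]
    show F _ = F _
    congr 1
    funext a
    fin_cases a <;> rfl
  have m2 : ∀ x y, M ![x, y, x] = f x := by
    intro x y
    funext i
    rw [← h2 (f x i) (f y i)]
    show F _ = F _
    congr 1
    funext a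
    fin_cases a <;> rfl
  have m3 : ∀ x y, M ![y, x, x] = f x := by
    intro x y
    funext i
    rw [← h3 (f x i) (f y i)]
    show F _ = F _
    congr 1
    funext a
    fin_cases a <;> rfl
  have e0 := edge ![0, 1, 2] ![1, 0, 0] (by decide)
  have e1 := edge ![0, 1, 2] ![1, 0, 1] (by decide)
  have e2 := edge ![0, 1, 2] ![2, 2, 0] (by decide)
  rw [m3] at e0
  rw [m2] at e1
  rw [m1] at e2
  have d01 := hg _ _ (hf 0 1 (by decide))
  have d02 := hg _ _ (hf 0 2 (by decide))
  have d12 := hg _ _ (hf 1 2 (by decide))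
  exact fin3_aux _ _ _ _ ⟨e0, e1, e2, d01, d02, d12⟩

theorem mem_gen_bot {V J : Type} {e : V → J → B} {x : V → B} :
    x ∈ gen (⊥ : Subgroup (Equiv.Perm B)) e ↔ ∃ j, x = fun v => e v j := by
  constructor
  · rintro ⟨j, g, hg, h⟩
    refine ⟨j, funext fun v => ?_⟩
    rw [← h v, Subgroup.mem_bot.1 hg]
    rfl
  · rintro ⟨j, rfl⟩
    exact ⟨j, Same.refl _ _⟩

/-- two tuples never generate a hard template if the group is trivial -/
theorem not_k3_two {n : ℕ} (ω : Fin n → Fin 2 → B) :
    ¬ PPConstructsK3 (single (gen (⊥ : Subgroup (Equiv.Perm B)) ω)) := by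
  classical
  refine not_k3_of_majority (fun x => if x 0 = x 1 then x 0 else x 2) ?_ ?_ ?_ ?_
  · intro i v hv
    have hk : ∀ a, ∃ k, v a = fun i => ω i k := fun a => mem_gen_bot.1 (hv a)
    choose k hk using hk
    have h1 : k 0 = k 1 ∨ k 0 = k 2 ∨ k 1 = k 2 := by
      have : ∀ a b c : Fin 2, a = b ∨ a = c ∨ b = c := by decide
      exact this _ _ _
    refine mem_gen_bot.2 ?_
    rcases h1 with h | h | h
    · refine ⟨k 0, funext fun j => ?_⟩
      have : v 0 j = v 1 j := by rw [hk 0, hk 1, h]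
      simp only [this, if_true]
      rw [hk 1, h]
    · refine ⟨k 0, funext fun j => ?_⟩
      have : v 2 j = v 0 j := by rw [hk 0, hk 2, h]
      simp only [this, ite_self]
      rw [hk 0]
    · refine ⟨k 1, funext fun j => ?_⟩
      have h2 : v 2 j = v 1 j := by rw [hk 1, hk 2, h]
      simp only
      split_ifs with h3
      · rw [h3, hk 1]
      · rw [h2, hk 1]
  · intro x y
    exact if_pos rfl
  · intro x y
    show (if x = y then x else x) = x
    simp
  · intro x y
    show (if y = x then y else x) = x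
    split_ifs with h
    · exact h
    · rfl

/-! ## the pure set -/

theorem exists_perm {V : Type} [Finite V] (u v : V → ℕ) (h : ∀ i j, u i = u j ↔ v i = v j) :
    ∃ g : Equiv.Perm ℕ, ∀ i, g (u i) = v i := by
  classical
  let φ : {a // a ∈ Set.range u} → {b // b ∈ Set.range v} := fun a => ⟨v a.2.choose, a.2.choose, rfl⟩
  have hφ : ∀ i, φ ⟨u i, i, rfl⟩ = ⟨v i, i, rfl⟩ := by
    intro i
    apply Subtype.ext
    have : u (⟨i, rfl⟩ : ∃ j, u j = u i).choose = u i := (⟨i, rfl⟩ : ∃ j, u j = u i).choose_spec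
    exact (h _ _).1 this
  have hbij : Function.Bijective φ := by
    constructor
    · rintro ⟨_, i, rfl⟩ ⟨_, j, rfl⟩ hij
      rw [hφ, hφ] at hij
      exact Subtype.ext ((h i j).2 (congrArg Subtype.val hij))
    · rintro ⟨_, i, rfl⟩
      exact ⟨⟨u i, i, rfl⟩, hφ i⟩
  have h1 : (Set.range u).Finite := Set.finite_range u
  have h2 : (Set.range v).Finite := Set.finite_range v
  have h3 : Infinite {a // ¬ a ∈ Set.range u} := h1.infinite_compl.to_subtype
  have h4 : Infinite {a // ¬ a ∈ Set.range v} := h2.infinite_compl.to_subtype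
  obtain ⟨ψ⟩ := nonempty_equiv_of_countable (α := {a // ¬ a ∈ Set.range u}) (β := {a // ¬ a ∈ Set.range v})
  refine ⟨Equiv.subtypeCongr (Equiv.ofBijective φ hbij) ψ, fun i => ?_⟩
  have h5 : Equiv.subtypeCongr (Equiv.ofBijective φ hbij) ψ (u i) =
      (Equiv.ofBijective φ hbij ⟨u i, i, rfl⟩ : {b // b ∈ Set.range v}).1 := by
    have h6 : (Equiv.sumCompl (· ∈ Set.range u)).symm (u i) = Sum.inl ⟨u i, i, rfl⟩ :=
      Equiv.sumCompl_symm_apply_of_pos (p := (· ∈ Set.range u)) (a := u i) ⟨i, rfl⟩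
    unfold Equiv.subtypeCongr
    simp only [Equiv.trans_apply, h6]
    rfl
  rw [h5]
  exact congrArg Subtype.val (hφ i)

theorem pres_inj {ι : Type} {ar : ι → ℕ} {𝔸 : Str ι ar ℕ}
    (h : ∀ (k : ℕ) (F : (Fin k → ℕ) → ℕ), 0 < k → Function.Injective F → IsPol 𝔸 F)
    {V : Type} {S : Set (V → ℕ)} (hS : PP 𝔸 S) {L : Type} [Finite L] [Nonempty L] (F : (L → ℕ) → ℕ)
    (hF : Function.Injective F) (v : L → V → ℕ) (hv : ∀ a, v a ∈ S) : (fun x => F (fun a => v a x)) ∈ S := by
  classical
  obtain ⟨k, ⟨e⟩⟩ := Finite.exists_equiv_fin L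
  have hk : 0 < k := by
    obtain ⟨a⟩ := (inferInstance : Nonempty L)
    exact (Nat.zero_le _).trans_lt (e a).2
  have h1 := (h k (fun x => F (x ∘ e)) hk (fun x y hxy => by
    have := hF hxy
    funext i
    have h2 := congrFun this (e.symm i)
    simpa using h2)).preserves hS (fun a => v (e.symm a)) (fun a => hv _)
  convert h1 using 1
  funext x
  congr 1
  funext a
  simp

theorem not_k3_of_inj {ι : Type} {ar : ι → ℕ} {𝔸 : Str ι ar ℕ}
    (h : ∀ (k : ℕ) (F : (Fin k → ℕ) → ℕ), 0 < k → Function.Injective F → IsPol 𝔸 F) :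
    ¬ PPConstructsK3 𝔸 := by
  classical
  rintro ⟨n, E, _, hE, ⟨f, hf⟩, ⟨g, hg⟩⟩
  have hE' := toPP hE
  have hperm : ∀ (g : Equiv.Perm ℕ) (z : Fin n ⊕ Fin n → ℕ), z ∈ E → (fun x => g (z x)) ∈ E := by
    intro g z hz
    exact pres_inj h hE' (L := Unit) (fun x => g (x ())) (fun x y hxy => by
      funext a
      exact g.injective hxy) (fun _ => z) (fun _ => hz)
  obtain ⟨Φ, hΦ⟩ := exists_injective_nat ((Fin 4 → Fin 3) → ℕ)
  let w : Fin 4 → Fin n → ℕ := fun s i => Φ (fun l => f (l s) i)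
  have key : ∀ s t : Fin 4, s ≠ t → Sum.elim (w s) (w t) ∈ E := by
    intro s t hst
    let L := {l : Fin 4 → Fin 3 // l s ≠ l t}
    have hL : ∀ c d : Fin 3, c ≠ d → ∃ l : L, l.1 s = c ∧ l.1 t = d := by
      intro c d hcd
      have h1 : (fun x => if x = s then c else d : Fin 4 → Fin 3) s = c := if_pos rfl
      have h2 : (fun x => if x = s then c else d : Fin 4 → Fin 3) t = d := if_neg hst.symm
      exact ⟨⟨fun x => if x = s then c else d, by rw [h1, h2]; exact hcd⟩, h1, h2⟩
    have hLn : Nonempty L := by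
      obtain ⟨l, _⟩ := hL 0 1 (by decide)
      exact ⟨l⟩
    obtain ⟨Ψ, hΨ⟩ := exists_injective_nat (L → ℕ)
    have h1 := pres_inj h hE' Ψ hΨ (fun l : L => Sum.elim (f (l.1 s)) (f (l.1 t))) (fun l => hf _ _ l.2)
    have hone : ∀ c : Fin 3, ∃ d, c ≠ d := by decide
    have htwo : ∀ c d : Fin 3, c ≠ d → ∃ e, e ≠ c ∧ e ≠ d := by decide
    have hss : ∀ i j, (∀ l : L, f (l.1 s) i = f (l.1 s) j) ↔ ∀ l : Fin 4 → Fin 3, f (l s) i = f (l s) j := by
      intro i j
      constructor
      · intro hh l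
        obtain ⟨d, hd⟩ := hone (l s)
        obtain ⟨l', h1, _⟩ := hL _ _ hd
        rw [← h1]
        exact hh l'
      · intro hh l
        exact hh l.1
    have htt : ∀ i j, (∀ l : L, f (l.1 t) i = f (l.1 t) j) ↔ ∀ l : Fin 4 → Fin 3, f (l t) i = f (l t) j := by
      intro i j
      constructor
      · intro hh l
        obtain ⟨d, hd⟩ := hone (l t)
        obtain ⟨l', _, h1⟩ := hL _ _ hd.symm
        rw [← h1]
        exact hh l'
      · intro hh l
        exact hh l.1
    have hst' : ∀ i j, (∀ l : L, f (l.1 s) i = f (l.1 t) j) ↔ ∀ l : Fin 4 → Fin 3, f (l s) i = f (l t) j := by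
      intro i j
      constructor
      · intro hh l
        have h3 : ∀ c d : Fin 3, c ≠ d → f c i = f d j := by
          intro c d hcd
          obtain ⟨l', h1, h2⟩ := hL _ _ hcd
          rw [← h1, ← h2]
          exact hh l'
        by_cases hl : l s = l t
        · obtain ⟨d, hd⟩ := hone (l s)
          obtain ⟨e, he1, he2⟩ := htwo _ _ hd
          rw [h3 (l s) d hd, ← h3 e d he2, ← hl]
          exact h3 e (l s) he1
        · exact h3 _ _ hl
      · intro hh l
        exact hh l.1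
    have hpat : ∀ x y : Fin n ⊕ Fin n,
        Ψ (fun l : L => Sum.elim (f (l.1 s)) (f (l.1 t)) x) = Ψ (fun l : L => Sum.elim (f (l.1 s)) (f (l.1 t)) y) ↔
        Sum.elim (w s) (w t) x = Sum.elim (w s) (w t) y := by
      intro x y
      rw [hΨ.eq_iff, funext_iff]
      rcases x with i | i <;> rcases y with j | j
      · show _ ↔ Φ _ = Φ _
        rw [hΦ.eq_iff, funext_iff]
        exact hss i j
      · show _ ↔ Φ _ = Φ _
        rw [hΦ.eq_iff, funext_iff]
        exact hst' i j
      · show _ ↔ Φ _ = Φ _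
        rw [hΦ.eq_iff, funext_iff]
        have := hst' j i
        constructor
        · intro hh l
          exact (this.1 (fun l => (hh l).symm) l).symm
        · intro hh l
          exact (this.2 (fun l => (hh l).symm) l).symm
      · show _ ↔ Φ _ = Φ _
        rw [hΦ.eq_iff, funext_iff]
        exact htt i j
    obtain ⟨g', hg'⟩ := exists_perm _ _ hpat
    have h2 := hperm g' _ h1
    have h3 : (fun x => g' (Ψ (fun l : L => Sum.elim (f (l.1 s)) (f (l.1 t)) x))) = Sum.elim (w s) (w t) :=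
      funext hg'
    rw [h3] at h2
    exact h2
  have hinj : Function.Injective (fun s => g (w s)) := by
    intro s t hst
    by_contra hne
    exact hg _ _ (key s t hne) hst
  have := Fintype.card_le_of_injective _ hinj
  simp at this

/-- one tuple never generates a hard template if the group is the full symmetric group -/
theorem not_k3_one {n : ℕ} (ω : Fin n → Fin 1 → ℕ) :
    ¬ PPConstructsK3 (single (gen (⊤ : Subgroup (Equiv.Perm ℕ)) ω)) := by
  apply not_k3_of_inj
  intro k F hk hF i v hv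
  have hv' : ∀ a i j, v a i = v a j ↔ ω i 0 = ω j 0 := by
    intro a i j
    obtain ⟨l, g, _, h⟩ := hv a
    have hl : l = 0 := Subsingleton.elim _ _
    subst hl
    have h1 : g (ω i 0) = v a i := h i
    have h2 : g (ω j 0) = v a j := h j
    rw [← h1, ← h2]
    exact g.injective.eq_iff
  obtain ⟨g, hg⟩ := exists_perm (fun i => ω i 0) (fun j => F (fun a => v a j)) (by
    intro i j
    rw [hF.eq_iff, funext_iff]
    constructor
    · intro h a
      exact (hv' a i j).2 h
    · intro h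
      exact (hv' ⟨0, hk⟩ i j).1 (h ⟨0, hk⟩))
  exact ⟨0, g, trivial, hg⟩

end Pool.Agent.L5helper59.BP
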